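import Pool.Agent.helper48.BH.SI

set_option autoImplicit false

open Finset

namespace Pool.Agent.helper48.BH

/-- the scale of `X` -/
theorem scaleOf (m₀ : ℕ) (X : ℝ) (hX : 4 ^ (m₀ + 1) ≤ X) :
    ∃ m : ℕ, m₀ ≤ m ∧ X ≤ 4 ^ m ∧ (4 : ℝ) ^ m < 4 * X := by
  refine ⟨Nat.clog 4 ⌈X⌉₊, ?_, ?_, ?_⟩
  · have h1 : (4 : ℝ) ^ (m₀ + 1) ≤ 4 ^ Nat.clog 4 ⌈X⌉₊ := by
      refine hX.trans ((Nat.le_ceil X).trans ?_)
      exact_mod_cast Nat.le_pow_clog (by norm_num) ⌈X⌉₊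
    have h2 := (pow_le_pow_iff_right₀ (by norm_num : (1 : ℝ) < 4)).1 h1
    omega
  · refine (Nat.le_ceil X).trans ?_
    exact_mod_cast Nat.le_pow_clog (by norm_num) ⌈X⌉₊
  · have h4 : (4 : ℝ) ≤ X := by
      refine le_trans ?_ hX
      rw [pow_succ]
      have : (1 : ℝ) ≤ 4 ^ m₀ := one_le_pow₀ (by norm_num)
      linarith
    have h1 : 1 < ⌈X⌉₊ := by
      rw [Nat.lt_ceil]
      push_cast
      linarith
    have h2 := Nat.pow_pred_clog_lt_self (by norm_num : 1 < 4) h1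
    have h3 : (⌈X⌉₊ : ℝ) < X + 1 := Nat.ceil_lt_add_one (by linarith)
    have h5 : 4 ^ (Nat.clog 4 ⌈X⌉₊).pred + 1 ≤ ⌈X⌉₊ := h2
    have h6 : ((4 : ℝ) ^ (Nat.clog 4 ⌈X⌉₊).pred) + 1 ≤ (⌈X⌉₊ : ℝ) := by exact_mod_cast h5
    have h7 : 0 < Nat.clog 4 ⌈X⌉₊ := Nat.clog_pos (by norm_num) h1
    have h8 : (4 : ℝ) ^ Nat.clog 4 ⌈X⌉₊ = 4 * 4 ^ (Nat.clog 4 ⌈X⌉₊).pred := by
      rw [← pow_succ']
      congr 1
      rw [Nat.pred_eq_sub_one]
      omega
    rw [h8]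
    linarith

/-- **Chen's rate in short intervals.** -/
theorem chen (h : ℕ) (hodd : Odd h) (h3 : 3 ≤ h) :
    ∃ C : ℝ, 0 < C ∧ ∀ t : ℝ, 0 < t → t < 1 → ∃ X₀ : ℝ, ∀ A : Set ℕ, IsBh h A →
      ∀ X : ℝ, X₀ ≤ X → ∃ y : ℕ, X ≤ y ∧ (y : ℝ) ≤ X ^ (1 + t) ∧
        cnt A y (y + (y : ℝ) ^ (1 - t)) ≤
          C * (t * Real.log y) ^ (-(1 / (h : ℝ))) * (y : ℝ) ^ (1 / (h : ℝ) - t) := by
  obtain ⟨C, c, m₀, hC, hc, hc4, H⟩ := pick h hodd h3
  have hhr : (3 : ℝ) ≤ h := by exact_mod_cast h3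
  refine ⟨4 * C * 8, by positivity, ?_⟩
  intro t ht0 ht1
  obtain ⟨b, hb⟩ := exists_pow_lt_of_lt_one hc (by norm_num : (1 / 4 : ℝ) < 1)
  refine ⟨4 ^ (m₀ + ⌈2 * (b + 3) / t⌉₊ + 1), ?_⟩
  intro A hA X hX
  obtain ⟨m, hm, hXm, hmX⟩ := scaleOf (m₀ + ⌈2 * (b + 3) / t⌉₊) X hX
  have hX1 : (1 : ℝ) ≤ X := le_trans (one_le_pow₀ (by norm_num)) hX
  have htm : 2 * ((b : ℝ) + 3) ≤ t * m := by
    have h1 : 2 * ((b : ℝ) + 3) / t ≤ (⌈2 * ((b : ℝ) + 3) / t⌉₊ : ℝ) := Nat.le_ceil _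
    have h2 : (⌈2 * ((b : ℝ) + 3) / t⌉₊ : ℝ) ≤ m := by
      have : ⌈2 * ((b : ℝ) + 3) / t⌉₊ ≤ m := by omega
      exact_mod_cast this
    have h4 := h1.trans h2
    rw [div_le_iff₀ ht0] at h4
    linarith
  have hb0 : (0 : ℝ) ≤ b := by positivity
  have hm6 : (6 : ℝ) ≤ m := by
    have h0 : (0 : ℝ) ≤ m := by positivity
    nlinarith
  set J : ℕ := ⌊t * m / 2⌋₊ + 1 with hJ
  have hJ1 : t * m / 2 ≤ J := by
    rw [hJ]
    push_cast
    exact (Nat.lt_floor_add_one _).le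
  have hJ2 : (J : ℝ) ≤ t * m / 2 + 1 := by
    rw [hJ]
    push_cast
    have := Nat.floor_le (by positivity : 0 ≤ t * m / 2)
    linarith
  have hJ0 : 0 < J := by omega
  have hJr : (0 : ℝ) < J := by exact_mod_cast hJ0
  obtain ⟨j, y, hj1, hj2, hy1, hy2, hy3⟩ := H A hA m J (by omega) hJ0
    (fun j => ((4 : ℝ) ^ (j + 1)) ^ (1 - t)) (by
      intro j hj1 hj2
      constructor
      · exact Real.one_le_rpow (one_le_pow₀ (by norm_num)) (by linarith)
      · have h1 : ((4 : ℝ) ^ (j + 1)) ^ (1 - t) ≤ ((4 : ℝ) ^ (m + J)) ^ (1 - t) := by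
          apply Real.rpow_le_rpow (by positivity) _ (by linarith)
          exact pow_le_pow_right₀ (by norm_num) (by omega)
        refine h1.trans ?_
        have h2 : (1 / 4 : ℝ) ^ b * 4 ^ m ≤ c * 4 ^ m :=
          mul_le_mul_of_nonneg_right hb.le (by positivity)
        refine le_trans ?_ h2
        have h4 : ((4 : ℝ) ^ (m + J)) ^ (1 - t) = (4 : ℝ) ^ (((m : ℝ) + J) * (1 - t)) := by
          rw [← Real.rpow_natCast, ← Real.rpow_mul (by norm_num)]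
          push_cast
          rfl
        have h5 : (1 / 4 : ℝ) ^ b * 4 ^ m = (4 : ℝ) ^ ((m : ℝ) - b) := by
          rw [Real.rpow_sub (by norm_num), Real.rpow_natCast, Real.rpow_natCast, one_div, inv_pow]
          field_simp
        rw [h4, h5]
        apply Real.rpow_le_rpow_of_exponent_le (by norm_num)
        nlinarith)
  have hy0 : (1 : ℝ) ≤ y := by
    have h1 : (1 : ℝ) ≤ 4 ^ j := one_le_pow₀ (by norm_num)
    exact h1.trans (by exact_mod_cast hy1)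
  have hyp : (0 : ℝ) < y := by linarith
  have hy2r : (y : ℝ) ≤ 4 ^ (m + J) := by
    have h1 : (y : ℝ) ≤ 4 ^ (j + 1) := by exact_mod_cast hy2.le
    exact h1.trans (pow_le_pow_right₀ (by norm_num) (by omega))
  refine ⟨y, ?_, ?_, ?_⟩
  · have h1 : (4 : ℝ) ^ m ≤ 4 ^ j := pow_le_pow_right₀ (by norm_num) hj1
    exact hXm.trans (h1.trans (by exact_mod_cast hy1))
  · refine hy2r.trans ?_
    have h1 : (4 : ℝ) ^ ((m : ℝ) - 1) ≤ X := by
      rw [Real.rpow_sub (by norm_num), Real.rpow_natCast, Real.rpow_one]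
      linarith
    have h2 : ((4 : ℝ) ^ ((m : ℝ) - 1)) ^ (1 + t) ≤ X ^ (1 + t) :=
      Real.rpow_le_rpow (by positivity) h1 (by linarith)
    refine le_trans ?_ h2
    rw [← Real.rpow_mul (by norm_num), ← Real.rpow_natCast]
    apply Real.rpow_le_rpow_of_exponent_le (by norm_num)
    push_cast
    nlinarith
  · have h1 : cnt A y (y + (y : ℝ) ^ (1 - t)) ≤ cnt A y (y + ((4 : ℝ) ^ (j + 1)) ^ (1 - t)) := by
      apply cnt_mono A le_rfl
      have : (y : ℝ) ^ (1 - t) ≤ ((4 : ℝ) ^ (j + 1)) ^ (1 - t) := by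
        apply Real.rpow_le_rpow hyp.le _ (by linarith)
        exact_mod_cast hy2.le
      linarith
    refine h1.trans (hy3.trans ?_)
    have h2 : ((4 : ℝ) ^ (j + 1)) ^ (1 - t) ≤ 4 * (y : ℝ) ^ (1 - t) := by
      have e1 : (4 : ℝ) ^ (j + 1) ≤ 4 * y := by
        rw [pow_succ']
        have : (4 : ℝ) ^ j ≤ y := by exact_mod_cast hy1
        linarith
      have e2 : ((4 : ℝ) ^ (j + 1)) ^ (1 - t) ≤ (4 * (y : ℝ)) ^ (1 - t) :=
        Real.rpow_le_rpow (by positivity) e1 (by linarith)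
      refine e2.trans ?_
      rw [Real.mul_rpow (by norm_num) hyp.le]
      apply mul_le_mul_of_nonneg_right _ (by positivity)
      calc (4 : ℝ) ^ (1 - t) ≤ 4 ^ (1 : ℝ) :=
            Real.rpow_le_rpow_of_exponent_le (by norm_num) (by linarith)
        _ = 4 := Real.rpow_one _
    have hlog : t * Real.log y ≤ 8 * J := by
      have e1 : Real.log y ≤ (m + J : ℕ) * Real.log 4 := by
        rw [← Real.log_pow]
        exact Real.log_le_log hyp hy2r
      have e2 : Real.log 4 < 2 := by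
        have : Real.log 4 = 2 * Real.log 2 := by
          rw [show (4 : ℝ) = 2 ^ 2 by norm_num, Real.log_pow]
          push_cast
          rfl
        rw [this]
        linarith [Real.log_two_lt_d9]
      have e3 : (J : ℝ) ≤ m := by nlinarith
      have e4 : Real.log y ≤ 4 * m := by
        push_cast at e1
        have : ((m : ℝ) + J) * Real.log 4 ≤ ((m : ℝ) + J) * 2 :=
          mul_le_mul_of_nonneg_left e2.le (by positivity)
        linarith
      nlinarith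
    have hlog0 : 0 < t * Real.log y := by
      apply mul_pos ht0
      apply Real.log_pos
      have e1 : (4 : ℝ) ^ 1 ≤ 4 ^ j := pow_le_pow_right₀ (by norm_num) (by
        have : 6 ≤ m := by exact_mod_cast hm6
        omega)
      have e2 : (4 : ℝ) ^ j ≤ y := by exact_mod_cast hy1
      linarith
    have hJp : (J : ℝ) ^ (-(1 / (h : ℝ))) ≤ 8 * (t * Real.log y) ^ (-(1 / (h : ℝ))) := by
      have e0 : -(1 / (h : ℝ)) ≤ 0 := by
        have : 0 ≤ 1 / (h : ℝ) := by positivity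
        linarith
      have e1 : (8 * (J : ℝ)) ^ (-(1 / (h : ℝ))) ≤ (t * Real.log y) ^ (-(1 / (h : ℝ))) :=
        Real.rpow_le_rpow_of_nonpos hlog0 hlog e0
      have e2 : (8 * (J : ℝ)) ^ (-(1 / (h : ℝ))) = 8 ^ (-(1 / (h : ℝ))) * (J : ℝ) ^ (-(1 / (h : ℝ))) :=
        Real.mul_rpow (by norm_num) hJr.le
      have e3 : (8 : ℝ) ^ (-1 : ℝ) ≤ 8 ^ (-(1 / (h : ℝ))) := by
        apply Real.rpow_le_rpow_of_exponent_le (by norm_num)
        have : 1 / (h : ℝ) ≤ 1 := by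
          rw [div_le_one (by linarith)]
          linarith
        linarith
      rw [Real.rpow_neg_one] at e3
      rw [e2] at e1
      have e4 : 0 ≤ (J : ℝ) ^ (-(1 / (h : ℝ))) := by positivity
      have e5 := mul_le_mul_of_nonneg_right e3 e4
      linarith
    have hyx : (y : ℝ) ^ (1 - t) * (y : ℝ) ^ (1 / (h : ℝ) - 1) = (y : ℝ) ^ (1 / (h : ℝ) - t) := by
      rw [← Real.rpow_add hyp]
      congr 1
      ring
    have hyn : 0 ≤ (y : ℝ) ^ (1 / (h : ℝ) - 1) := by positivity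
    calc C * (J : ℝ) ^ (-(1 / (h : ℝ))) * ((4 : ℝ) ^ (j + 1)) ^ (1 - t) *
          (y : ℝ) ^ (1 / (h : ℝ) - 1)
        ≤ C * (8 * (t * Real.log y) ^ (-(1 / (h : ℝ)))) * (4 * (y : ℝ) ^ (1 - t)) *
          (y : ℝ) ^ (1 / (h : ℝ) - 1) := by
          apply mul_le_mul_of_nonneg_right _ hyn
          apply mul_le_mul _ h2 (by positivity) (by positivity)
          exact mul_le_mul_of_nonneg_left hJp hC.le
      _ = 4 * C * 8 * (t * Real.log y) ^ (-(1 / (h : ℝ))) *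
          ((y : ℝ) ^ (1 - t) * (y : ℝ) ^ (1 / (h : ℝ) - 1)) := by ring
      _ = _ := by rw [hyx]

end Pool.Agent.helper48.BH
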