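import Mathlib

set_option autoImplicit false

open Finset

namespace Pool.Agent.helper48.BH

/-- B_h-set of integers -/
def IsBhZ (h : ℕ) (A : Set ℤ) : Prop :=
  ∀ s t : Multiset ℤ, Multiset.card s = h → Multiset.card t = h →
    (∀ x ∈ s, x ∈ A) → (∀ x ∈ t, x ∈ A) → s.sum = t.sum → s = t

/-- `x0 + sum over Pl - sum over the complement - a` -/
def V {n : ℕ} (Pl : Finset (Fin n)) (x0 : ℤ) (x : Fin n → ℤ) (a : ℤ) : ℤ :=
  x0 + ∑ i ∈ Pl, x i - ∑ i ∈ Plᶜ, x i - a

/-- admissible tuples of the scale `M` -/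
structure Adm {n : ℕ} (A : Set ℤ) (M w : ℤ) (x0 : ℤ) (x : Fin n → ℤ) (a : ℤ) : Prop where
  m0 : x0 ∈ A
  l0 : M < x0
  u0 : x0 ≤ M + 2 * w
  mi : ∀ i, x i ∈ A
  li : ∀ i : Fin n, M + 2 * ((i : ℤ) + 1) * w < x i
  ui : ∀ i : Fin n, x i ≤ M + 2 * ((i : ℤ) + 2) * w
  ma : a ∈ A
  la : 7 * M < 4 * a
  ua : a ≤ 3 * M

theorem slot {M w y : ℤ} {i l : ℤ} (hw : 0 < w) (h1 : M + 2 * (i + 1) * w < y)
    (h2 : y ≤ M + 2 * (i + 2) * w) (h3 : M + 2 * (l + 1) * w < y) (h4 : y ≤ M + 2 * (l + 2) * w) :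
    i = l := by
  have h5 : (i - l - 1) * w < 0 := by nlinarith
  have h6 : (l - i - 1) * w < 0 := by nlinarith
  have h7 : i - l - 1 < 0 := by
    by_contra h
    push Not at h
    have := mul_nonneg h hw.le
    omega
  have h8 : l - i - 1 < 0 := by
    by_contra h
    push Not at h
    have := mul_nonneg h hw.le
    omega
  omega

theorem Adm.hi {n : ℕ} {A : Set ℤ} {M w x0 a : ℤ} {x : Fin n → ℤ} (h : Adm A M w x0 x a)
    (hw : 0 < w) (hM : 8 * ((n : ℤ) + 1) * w ≤ M) (i : Fin n) : M < x i ∧ 4 * x i ≤ 5 * M := by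
  have h1 := h.li i
  have h2 := h.ui i
  have h3 : (i : ℤ) + 1 ≤ n := by have := i.isLt; exact_mod_cast this
  have h4 : (0 : ℤ) ≤ (i : ℤ) := by positivity
  constructor
  · nlinarith
  · nlinarith

theorem Adm.h0 {n : ℕ} {A : Set ℤ} {M w x0 a : ℤ} {x : Fin n → ℤ} (h : Adm A M w x0 x a)
    (hw : 0 < w) (hM : 8 * ((n : ℤ) + 1) * w ≤ M) : 4 * x0 ≤ 5 * M := by
  have h2 := h.u0
  have h4 : (0 : ℤ) ≤ n := by positivity
  nlinarith

theorem scale {i j : ℕ} {y : ℤ} (h1 : (4 : ℤ) ^ i < y) (h2 : 4 * y ≤ 5 * 4 ^ i)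
    (h3 : (4 : ℤ) ^ j < y) (h4 : 4 * y ≤ 5 * 4 ^ j) : i = j := by
  have key : ∀ a b : ℕ, a < b → (4 : ℤ) * 4 ^ a ≤ 4 ^ b := by
    intro a b hab
    have h : (4 : ℤ) ^ (a + 1) ≤ 4 ^ b := pow_le_pow_right₀ (by norm_num) hab
    rw [pow_succ] at h
    linarith
  rcases lt_trichotomy i j with h | h | h
  · have := key i j h
    have hp : (0 : ℤ) < 4 ^ i := by positivity
    omega
  · exact h
  · have := key j i h
    have hp : (0 : ℤ) < 4 ^ j := by positivity
    omega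

/-- The uniqueness step. -/
theorem uniq {n h : ℕ} {Pl : Finset (Fin n)} (hn : n + 2 = h) {A : Set ℤ}
    (hA : IsBhZ h A) {j j' : ℕ} {w : ℕ → ℤ} (hw : 0 < w j) (hw' : 0 < w j')
    (hM : 8 * ((n : ℤ) + 1) * w j ≤ 4 ^ j) (hM' : 8 * ((n : ℤ) + 1) * w j' ≤ 4 ^ j')
    {x0 x0' a a' : ℤ} {x x' : Fin n → ℤ} (H : Adm A (4 ^ j) (w j) x0 x a)
    (H' : Adm A (4 ^ j') (w j') x0' x' a') (hV : V Pl x0 x a = V Pl x0' x' a') :
    j = j' ∧ x0 = x0' ∧ x = x' ∧ a = a' := by
  have hst : (({x0} : Multiset ℤ) + Pl.val.map x) + (Plᶜ.val.map x' + {a'}) =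
      ({x0'} + Pl.val.map x') + (Plᶜ.val.map x + {a}) := by
    have hcard : Pl.card + Plᶜ.card = n := by
      rw [Finset.card_add_card_compl, Fintype.card_fin]
    apply hA
    · simp only [Multiset.card_add, Multiset.card_singleton, Multiset.card_map, Finset.card_val]
      omega
    · simp only [Multiset.card_add, Multiset.card_singleton, Multiset.card_map, Finset.card_val]
      omega
    · intro y hy
      simp only [Multiset.mem_add, Multiset.mem_singleton, Multiset.mem_map] at hy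
      rcases hy with (rfl | ⟨i, _, rfl⟩) | (⟨i, _, rfl⟩ | rfl)
      · exact H.m0
      · exact H.mi i
      · exact H'.mi i
      · exact H'.ma
    · intro y hy
      simp only [Multiset.mem_add, Multiset.mem_singleton, Multiset.mem_map] at hy
      rcases hy with (rfl | ⟨i, _, rfl⟩) | (⟨i, _, rfl⟩ | rfl)
      · exact H'.m0
      · exact H'.mi i
      · exact H.mi i
      · exact H.ma
    · simp only [Multiset.sum_add, Multiset.sum_singleton]
      unfold V at hV
      have e1 : (Pl.val.map x).sum = ∑ i ∈ Pl, x i := rfl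
      have e2 : (Pl.val.map x').sum = ∑ i ∈ Pl, x' i := rfl
      have e3 : (Plᶜ.val.map x).sum = ∑ i ∈ Plᶜ, x i := rfl
      have e4 : (Plᶜ.val.map x').sum = ∑ i ∈ Plᶜ, x' i := rfl
      rw [e1, e2, e3, e4]
      linarith
  have memt : ∀ y : ℤ, y ∈ (({x0} : Multiset ℤ) + Pl.val.map x) + (Plᶜ.val.map x' + {a'}) →
      y = x0' ∨ (∃ i ∈ Pl, x' i = y) ∨ (∃ i ∈ Plᶜ, x i = y) ∨ y = a := by
    intro y hy
    rw [hst] at hy
    simp only [Multiset.mem_add, Multiset.mem_singleton, Multiset.mem_map, Finset.mem_val] at hy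
    rcases hy with (h1 | h1) | (h1 | h1)
    · exact Or.inl h1
    · exact Or.inr (Or.inl h1)
    · exact Or.inr (Or.inr (Or.inl h1))
    · exact Or.inr (Or.inr (Or.inr h1))
  have hx0s : x0 ∈ (({x0} : Multiset ℤ) + Pl.val.map x) + (Plᶜ.val.map x' + {a'}) := by
    simp
  have hjj : j = j' := by
    rcases memt x0 hx0s with h1 | ⟨i, _, h1⟩ | ⟨i, _, h1⟩ | h1
    · exact scale H.l0 (H.h0 hw hM) (h1 ▸ H'.l0) (h1 ▸ H'.h0 hw' hM')
    · have h2 := H'.hi hw' hM' i
      rw [h1] at h2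
      exact scale H.l0 (H.h0 hw hM) h2.1 h2.2
    · exfalso
      have h2 := H.li i
      have h3 := H.u0
      have h4 : (0 : ℤ) ≤ (i : ℤ) := by positivity
      rw [h1] at h2
      nlinarith
    · exfalso
      have h2 := H.la
      have h3 := H.h0 hw hM
      have h4 : (0 : ℤ) < 4 ^ j := by positivity
      rw [← h1] at h2
      omega
  subst hjj
  have hx0 : x0 = x0' := by
    rcases memt x0 hx0s with h1 | ⟨i, _, h1⟩ | ⟨i, _, h1⟩ | h1
    · exact h1
    · exfalso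
      have h2 := H'.li i
      have h3 := H.u0
      have h4 : (0 : ℤ) ≤ (i : ℤ) := by positivity
      rw [h1] at h2
      nlinarith
    · exfalso
      have h2 := H.li i
      have h3 := H.u0
      have h4 : (0 : ℤ) ≤ (i : ℤ) := by positivity
      rw [h1] at h2
      nlinarith
    · exfalso
      have h2 := H.la
      have h3 := H.h0 hw hM
      have h4 : (0 : ℤ) < 4 ^ j := by positivity
      rw [← h1] at h2
      omega
  have hx : x = x' := by
    funext i
    have h5 : (0 : ℤ) ≤ (i : ℤ) := by positivity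
    by_cases hi : i ∈ Pl
    · have hs : x i ∈ (({x0} : Multiset ℤ) + Pl.val.map x) + (Plᶜ.val.map x' + {a'}) := by
        simp only [Multiset.mem_add, Multiset.mem_singleton, Multiset.mem_map, Finset.mem_val]
        exact Or.inl (Or.inr ⟨i, hi, rfl⟩)
      rcases memt (x i) hs with h1 | ⟨l, _, h1⟩ | ⟨l, hl, h1⟩ | h1
      · exfalso
        have h2 := H.li i
        have h3 := H'.u0
        rw [h1] at h2
        nlinarith
      · have h6 : (i : ℤ) = (l : ℤ) :=
          slot hw (H.li i) (H.ui i) (h1 ▸ H'.li l) (h1 ▸ H'.ui l)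
        have h7 : i = l := by apply Fin.ext; exact_mod_cast h6
        rw [h7] at h1 ⊢
        exact h1.symm
      · exfalso
        have h6 : (i : ℤ) = (l : ℤ) :=
          slot hw (H.li i) (H.ui i) (h1 ▸ H.li l) (h1 ▸ H.ui l)
        have h7 : i = l := by apply Fin.ext; exact_mod_cast h6
        rw [← h7, Finset.mem_compl] at hl
        exact hl hi
      · exfalso
        have h2 := H.la
        have h3 := (H.hi hw hM i).2
        have h4 : (0 : ℤ) < 4 ^ j := by positivity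
        rw [← h1] at h2
        omega
    · have hs : x' i ∈ (({x0} : Multiset ℤ) + Pl.val.map x) + (Plᶜ.val.map x' + {a'}) := by
        simp only [Multiset.mem_add, Multiset.mem_singleton, Multiset.mem_map, Finset.mem_val]
        exact Or.inr (Or.inl ⟨i, Finset.mem_compl.mpr hi, rfl⟩)
      rcases memt (x' i) hs with h1 | ⟨l, hl, h1⟩ | ⟨l, hl, h1⟩ | h1
      · exfalso
        have h2 := H'.li i
        have h3 := H'.u0
        rw [h1] at h2
        nlinarith
      · exfalso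
        have h6 : (i : ℤ) = (l : ℤ) :=
          slot hw (H'.li i) (H'.ui i) (h1 ▸ H'.li l) (h1 ▸ H'.ui l)
        have h7 : i = l := by apply Fin.ext; exact_mod_cast h6
        rw [← h7] at hl
        exact hi hl
      · have h6 : (i : ℤ) = (l : ℤ) :=
          slot hw (H'.li i) (H'.ui i) (h1 ▸ H.li l) (h1 ▸ H.ui l)
        have h7 : i = l := by apply Fin.ext; exact_mod_cast h6
        rw [h7] at h1 ⊢
        exact h1
      · exfalso
        have h2 := H.la
        have h3 := (H'.hi hw hM i).2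
        have h4 : (0 : ℤ) < 4 ^ j := by positivity
        rw [← h1] at h2
        omega
  refine ⟨rfl, hx0, hx, ?_⟩
  subst hx0 hx
  unfold V at hV
  linarith

open Classical in
/-- the admissible tuples of the scale `M` with `-4U ≤ V < 0` -/
noncomputable def NN {n : ℕ} (A : Set ℤ) (Pl : Finset (Fin n)) (M w U : ℤ) :
    Finset (ℤ × (Fin n → ℤ) × ℤ) :=
  ((Ioc M (M + 2 * w)) ×ˢ ((Fintype.piFinset fun i : Fin n =>
    Ioc (M + 2 * ((i : ℤ) + 1) * w) (M + 2 * ((i : ℤ) + 2) * w)) ×ˢ (Ioc M (3 * M)))).filter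
    fun q : ℤ × (Fin n → ℤ) × ℤ =>
      Adm A M w q.1 q.2.1 q.2.2 ∧ -(4 * U) ≤ V Pl q.1 q.2.1 q.2.2 ∧ V Pl q.1 q.2.1 q.2.2 < 0

theorem mem_NN {n : ℕ} {A : Set ℤ} {Pl : Finset (Fin n)} {M w U : ℤ} (hM : 0 < M)
    {q : ℤ × (Fin n → ℤ) × ℤ} : q ∈ NN A Pl M w U ↔
      Adm A M w q.1 q.2.1 q.2.2 ∧ -(4 * U) ≤ V Pl q.1 q.2.1 q.2.2 ∧ V Pl q.1 q.2.1 q.2.2 < 0 := by
  classical
  unfold NN
  rw [Finset.mem_filter]
  constructor
  · exact fun h => h.2
  · intro h
    refine ⟨?_, h⟩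
    rw [Finset.mem_product, Finset.mem_product, Fintype.mem_piFinset, Finset.mem_Ioc,
      Finset.mem_Ioc]
    refine ⟨⟨h.1.l0, h.1.u0⟩, fun i => ?_, ?_, h.1.ua⟩
    · rw [Finset.mem_Ioc]
      exact ⟨h.1.li i, h.1.ui i⟩
    · have := h.1.la
      omega

open Classical in
noncomputable def P (A : Set ℤ) (L y : ℤ) : Finset ℤ := (Ioc y (y + L)).filter (· ∈ A)

theorem mem_P {A : Set ℤ} {L y x : ℤ} : x ∈ P A L y ↔ (y < x ∧ x ≤ y + L) ∧ x ∈ A := by
  classical
  unfold P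
  rw [Finset.mem_filter, Finset.mem_Ioc]

/-- the position of the last variable -/
def tt {n : ℕ} (Pl : Finset (Fin n)) (u : ℤ) (r : Fin n → ℤ) : ℤ :=
  u + ∑ i ∈ Pl, r i - ∑ i ∈ Plᶜ, r i

open Classical in
/-- Count for one scale. -/
theorem blk {n k : ℕ} (hk : 2 ≤ k) (hn : n + 3 = 2 * k) (A : Set ℤ) (Pl : Finset (Fin n))
    (hPl : Pl.card + 1 = k) (M w L U : ℤ) (hw : 0 < w) (hL : 0 < L) (hLw : L ≤ w) (hU : 0 < U)
    (hkL : k * L < U) (hUM : 16 * U ≤ M) (hM : 8 * (k : ℤ) * (((n : ℤ) + 1) * w) ≤ M)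
    (good : ℤ → Prop) (c : ℝ) (hc : 0 ≤ c)
    (hgood : ∀ y, M ≤ y → y < 4 * M → good y → c ≤ ((P A L y).card : ℝ))
    (D : ℕ) (hD : ((Ico M (4 * M)).filter fun y => ¬ good y).card = D) (hDw : 4 * (D : ℤ) ≤ w) :
    (U : ℝ) * ((w : ℝ) / 2) ^ n * ((w : ℝ) / 2) * (c * (c ^ n * c)) ≤
      ((NN A Pl M w U).card : ℝ) * ((L : ℝ) ^ n * ((L : ℝ) * L)) := by
  have hkz : (2 : ℤ) ≤ k := by exact_mod_cast hk
  have hnz : (0 : ℤ) ≤ n := by positivity
  set T : ℤ := ((n : ℤ) + 1) * w with hT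
  have hTw : w ≤ T := by nlinarith
  set kT : ℤ := (k : ℤ) * T with hkT
  have hkT2 : 2 * T ≤ kT := by nlinarith
  have hM8 : 8 * kT ≤ M := by rw [hkT]; linarith [hM, mul_assoc (8 : ℤ) (k : ℤ) T]
  have hM0 : 0 < M := by linarith
  set lo : Fin n → ℤ := fun i => M + 2 * ((i : ℤ) + 1) * w with hlo
  have hloM : ∀ i, M ≤ lo i ∧ lo i + w ≤ M + 2 * T := by
    intro i
    have h3 : (i : ℤ) + 1 ≤ n := by have := i.isLt; exact_mod_cast this
    have h4 : (0 : ℤ) ≤ (i : ℤ) := by positivity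
    constructor
    · simp only [hlo]; nlinarith
    · simp only [hlo, hT]; nlinarith
  set G : Fin n → Finset ℤ := fun i => (Ico (lo i) (lo i + w)).filter good with hG
  set base : Finset (ℤ × (Fin n → ℤ)) := Ico U (2 * U) ×ˢ Fintype.piFinset G with hbase
  set Y : ℤ × (Fin n → ℤ) → Finset ℤ := fun b =>
    (Ico M (M + w)).filter (fun y => good y ∧ good (y + tt Pl b.1 b.2)) with hY
  have hPlc : Plᶜ.card + 2 = k := by
    have h := Finset.card_add_card_compl Pl
    rw [Fintype.card_fin] at h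
    omega
  -- the range of the positions
  have hz : ∀ b ∈ base, ∀ y, M ≤ y → y < M + w →
      7 * M ≤ 4 * (y + tt Pl b.1 b.2) ∧ y + tt Pl b.1 b.2 + L ≤ 3 * M := by
    rintro ⟨u, r⟩ hb y hy1 hy2
    rw [hbase, Finset.mem_product, Fintype.mem_piFinset, Finset.mem_Ico] at hb
    obtain ⟨⟨hu1, hu2⟩, hr⟩ := hb
    simp only at hu1 hu2 hr
    have hr' : ∀ i, M ≤ r i ∧ r i ≤ M + 2 * T := by
      intro i
      have h1 := hr i
      rw [hG, Finset.mem_filter, Finset.mem_Ico] at h1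
      have h2 := hloM i
      exact ⟨by linarith [h1.1.1, h2.1], by linarith [h1.1.2, h2.2]⟩
    have s1 : (Pl.card : ℤ) * M ≤ ∑ i ∈ Pl, r i := by
      have := Finset.card_nsmul_le_sum Pl r M (fun i _ => (hr' i).1)
      rwa [nsmul_eq_mul] at this
    have s2 : ∑ i ∈ Pl, r i ≤ (Pl.card : ℤ) * (M + 2 * T) := by
      have := Finset.sum_le_card_nsmul Pl r (M + 2 * T) (fun i _ => (hr' i).2)
      rwa [nsmul_eq_mul] at this
    have s3 : (Plᶜ.card : ℤ) * M ≤ ∑ i ∈ Plᶜ, r i := by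
      have := Finset.card_nsmul_le_sum Plᶜ r M (fun i _ => (hr' i).1)
      rwa [nsmul_eq_mul] at this
    have s4 : ∑ i ∈ Plᶜ, r i ≤ (Plᶜ.card : ℤ) * (M + 2 * T) := by
      have := Finset.sum_le_card_nsmul Plᶜ r (M + 2 * T) (fun i _ => (hr' i).2)
      rwa [nsmul_eq_mul] at this
    have c1 : (Pl.card : ℤ) = k - 1 := by
      have : ((Pl.card + 1 : ℕ) : ℤ) = k := by rw [hPl]
      push_cast at this
      linarith
    have c2 : (Plᶜ.card : ℤ) = k - 2 := by
      have : ((Plᶜ.card + 2 : ℕ) : ℤ) = k := by rw [hPlc]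
      push_cast at this
      linarith
    rw [c1] at s1 s2
    rw [c2] at s3 s4
    unfold tt
    simp only
    have e1 : ((k : ℤ) - 1) * (M + 2 * T) = (k - 1) * M + 2 * kT - 2 * T := by rw [hkT]; ring
    have e2 : ((k : ℤ) - 2) * (M + 2 * T) = (k - 1) * M - M + 2 * kT - 4 * T := by rw [hkT]; ring
    have e3 : ((k : ℤ) - 2) * M = (k - 1) * M - M := by ring
    rw [e1] at s2
    rw [e2] at s4
    rw [e3] at s3
    constructor
    · linarith
    · linarith
  -- cardinalities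
  have hD1 : ∀ (S : Finset ℤ) (f : ℤ → ℤ), Set.InjOn f S →
      (∀ y ∈ S, M ≤ f y ∧ f y < 4 * M) → (S.filter fun y => ¬ good (f y)).card ≤ D := by
    intro S f hf hS
    rw [← hD]
    apply Finset.card_le_card_of_injOn f
    · intro y hy
      have hy' := Finset.mem_filter.1 (Finset.mem_coe.1 hy)
      rw [Finset.mem_coe, Finset.mem_filter, Finset.mem_Ico]
      exact ⟨hS y hy'.1, hy'.2⟩
    · intro y hy y' hy' h
      exact hf (Finset.mem_filter.1 (Finset.mem_coe.1 hy)).1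
        (Finset.mem_filter.1 (Finset.mem_coe.1 hy')).1 h
  have hDr : 4 * (D : ℝ) ≤ w := by exact_mod_cast hDw
  have hwr : (0 : ℝ) < w := by exact_mod_cast hw
  have hIco : ∀ a : ℤ, ((Ico a (a + w)).card : ℝ) = w := by
    intro a
    rw [Int.card_Ico]
    have h1 : (((a + w - a).toNat : ℤ) : ℝ) = ((a + w - a : ℤ) : ℝ) := by
      rw [Int.toNat_of_nonneg (by linarith)]
    have h2 : (((a + w - a).toNat : ℤ) : ℝ) = (((a + w - a).toNat : ℕ) : ℝ) := by norm_cast
    rw [← h2, h1]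
    push_cast
    ring
  have hGc : ∀ i, (w : ℝ) / 2 ≤ ((G i).card : ℝ) := by
    intro i
    have h1 := Finset.card_filter_add_card_filter_not (s := Ico (lo i) (lo i + w)) good
    have h2 := hD1 (Ico (lo i) (lo i + w)) id (fun _ _ _ _ h => h) (by
      intro y hy
      rw [Finset.mem_Ico] at hy
      have h3 := hloM i
      simp only [id]
      exact ⟨by linarith, by linarith⟩)
    simp only [id] at h2
    have h3 : (((Ico (lo i) (lo i + w)).filter good).card : ℝ) +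
        (((Ico (lo i) (lo i + w)).filter fun y => ¬ good y).card : ℝ) = w := by
      rw [← hIco (lo i)]
      exact_mod_cast h1
    have h4 : (((Ico (lo i) (lo i + w)).filter fun y => ¬ good y).card : ℝ) ≤ D := by
      exact_mod_cast h2
    have h5 : ((G i).card : ℝ) = (((Ico (lo i) (lo i + w)).filter good).card : ℝ) := rfl
    rw [h5]
    linarith
  have hYc : ∀ b ∈ base, (w : ℝ) / 2 ≤ ((Y b).card : ℝ) := by
    intro b hb
    have h2 := hD1 (Ico M (M + w)) id (fun _ _ _ _ h => h) (by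
      intro y hy
      rw [Finset.mem_Ico] at hy
      simp only [id]
      exact ⟨by linarith, by linarith⟩)
    simp only [id] at h2
    have h3 := hD1 (Ico M (M + w)) (fun y => y + tt Pl b.1 b.2) (fun _ _ _ _ h => by
      simpa using h) (by
      intro y hy
      rw [Finset.mem_Ico] at hy
      have h4 := hz b hb y hy.1 hy.2
      exact ⟨by linarith [h4.1], by linarith [h4.2]⟩)
    have h5 : (Ico M (M + w)) ⊆ Y b ∪ (((Ico M (M + w)).filter fun y => ¬ good y) ∪
        ((Ico M (M + w)).filter fun y => ¬ good (y + tt Pl b.1 b.2))) := by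
      intro y hy
      rw [Finset.mem_union, Finset.mem_union, hY]
      simp only [Finset.mem_filter]
      tauto
    have h6 := (Finset.card_le_card h5).trans ((Finset.card_union_le _ _).trans
      (Nat.add_le_add_left (Finset.card_union_le _ _) _))
    have h7 : ((Ico M (M + w)).card : ℝ) ≤ ((Y b).card : ℝ) + (D + D) := by
      have h8 : (Ico M (M + w)).card ≤ (Y b).card + (D + D) := by omega
      exact_mod_cast h8
    rw [hIco M] at h7
    linarith
  have hbc : (U : ℝ) * ((w : ℝ) / 2) ^ n ≤ (base.card : ℝ) := by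
    rw [hbase, Finset.card_product, Int.card_Ico, Fintype.card_piFinset]
    push_cast
    have h1 : (((2 * U - U).toNat : ℕ) : ℝ) = U := by
      have h2 : (((2 * U - U).toNat : ℤ) : ℝ) = ((2 * U - U : ℤ) : ℝ) := by
        rw [Int.toNat_of_nonneg (by linarith)]
      have h3 : (((2 * U - U).toNat : ℤ) : ℝ) = (((2 * U - U).toNat : ℕ) : ℝ) := by norm_cast
      rw [← h3, h2]
      push_cast
      ring
    rw [h1]
    have hUr : (0 : ℝ) ≤ U := by exact_mod_cast hU.le
    apply mul_le_mul_of_nonneg_left _ hUr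
    have h4 : ((w : ℝ) / 2) ^ n = ∏ _i : Fin n, ((w : ℝ) / 2) := by
      rw [Finset.prod_const, Finset.card_univ, Fintype.card_fin]
    rw [h4]
    exact Finset.prod_le_prod (fun _ _ => by positivity) (fun i _ => hGc i)
  set Q : Finset (Σ _ : ℤ × (Fin n → ℤ), ℤ) := base.sigma Y with hQ
  have hQc : (U : ℝ) * ((w : ℝ) / 2) ^ n * ((w : ℝ) / 2) ≤ (Q.card : ℝ) := by
    rw [hQ, Finset.card_sigma]
    push_cast
    calc (U : ℝ) * ((w : ℝ) / 2) ^ n * ((w : ℝ) / 2) ≤ (base.card : ℝ) * ((w : ℝ) / 2) :=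
          mul_le_mul_of_nonneg_right hbc (by positivity)
      _ = ∑ _b ∈ base, ((w : ℝ) / 2) := by rw [Finset.sum_const, nsmul_eq_mul]
      _ ≤ ∑ b ∈ base, ((Y b).card : ℝ) := Finset.sum_le_sum hYc
  set F : (Σ _ : ℤ × (Fin n → ℤ), ℤ) → Finset (ℤ × (Fin n → ℤ) × ℤ) := fun q =>
    P A L q.2 ×ˢ ((Fintype.piFinset fun i => P A L (q.1.2 i)) ×ˢ P A L (q.2 + tt Pl q.1.1 q.1.2))
    with hF
  have hQm : ∀ q ∈ Q, q.1 ∈ base ∧ M ≤ q.2 ∧ q.2 < M + w ∧ good q.2 ∧
      good (q.2 + tt Pl q.1.1 q.1.2) ∧ ∀ i, lo i ≤ q.1.2 i ∧ q.1.2 i < lo i + w ∧ good (q.1.2 i) := by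
    rintro ⟨⟨u, r⟩, y⟩ hq
    rw [hQ, Finset.mem_sigma] at hq
    obtain ⟨h1, h2⟩ := hq
    simp only at h1 h2
    rw [hY, Finset.mem_filter, Finset.mem_Ico] at h2
    refine ⟨h1, h2.1.1, h2.1.2, h2.2.1, h2.2.2, fun i => ?_⟩
    rw [hbase, Finset.mem_product, Fintype.mem_piFinset] at h1
    have h3 := h1.2 i
    simp only at h3
    rw [hG, Finset.mem_filter, Finset.mem_Ico] at h3
    exact ⟨h3.1.1, h3.1.2, h3.2⟩
  have hFc : ∀ q ∈ Q, c * (c ^ n * c) ≤ ((F q).card : ℝ) := by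
    intro q hq
    obtain ⟨hb, h1, h2, h3, h4, h5⟩ := hQm q hq
    have hzq := hz q.1 hb q.2 h1 h2
    rw [hF]
    simp only [Finset.card_product, Fintype.card_piFinset]
    push_cast
    have a1 := hgood q.2 h1 (by linarith) h3
    have a2 := hgood (q.2 + tt Pl q.1.1 q.1.2) (by linarith) (by linarith) h4
    have a3 : c ^ n ≤ ∏ i : Fin n, ((P A L (q.1.2 i)).card : ℝ) := by
      have h6 : c ^ n = ∏ _i : Fin n, c := by
        rw [Finset.prod_const, Finset.card_univ, Fintype.card_fin]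
      rw [h6]
      refine Finset.prod_le_prod (fun _ _ => hc) (fun i _ => ?_)
      have h7 := hloM i
      exact hgood _ (by linarith [(h5 i).1]) (by linarith [(h5 i).2.1]) (h5 i).2.2
    have hp : (0 : ℝ) ≤ ∏ i : Fin n, ((P A L (q.1.2 i)).card : ℝ) :=
      Finset.prod_nonneg fun _ _ => by positivity
    exact mul_le_mul a1 (mul_le_mul a3 a2 hc hp) (mul_nonneg (pow_nonneg hc _) hc) (by positivity)
  have hBig : (U : ℝ) * ((w : ℝ) / 2) ^ n * ((w : ℝ) / 2) * (c * (c ^ n * c)) ≤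
      ((Q.sigma F).card : ℝ) := by
    rw [Finset.card_sigma]
    push_cast
    calc (U : ℝ) * ((w : ℝ) / 2) ^ n * ((w : ℝ) / 2) * (c * (c ^ n * c))
        ≤ (Q.card : ℝ) * (c * (c ^ n * c)) := mul_le_mul_of_nonneg_right hQc (by positivity)
      _ = ∑ _q ∈ Q, (c * (c ^ n * c)) := by rw [Finset.sum_const, nsmul_eq_mul]
      _ ≤ ∑ q ∈ Q, ((F q).card : ℝ) := Finset.sum_le_sum hFc
  refine hBig.trans ?_
  -- the injection
  set E : Finset ((Fin n → ℤ) × ℤ × ℤ) :=
    (Fintype.piFinset fun _ : Fin n => Icc 1 L) ×ˢ (Icc 1 L ×ˢ Icc 1 L) with hE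
  have hLc : ((Icc 1 L).card : ℝ) = L := by
    rw [Int.card_Icc]
    have h2 : (((L + 1 - 1).toNat : ℤ) : ℝ) = ((L + 1 - 1 : ℤ) : ℝ) := by
      rw [Int.toNat_of_nonneg (by linarith)]
    have h3 : (((L + 1 - 1).toNat : ℤ) : ℝ) = (((L + 1 - 1).toNat : ℕ) : ℝ) := by norm_cast
    rw [← h3, h2]
    push_cast
    ring
  have hEc : (E.card : ℝ) = (L : ℝ) ^ n * ((L : ℝ) * L) := by
    rw [hE, Finset.card_product, Finset.card_product, Fintype.card_piFinset]
    push_cast
    rw [hLc, Finset.prod_const, Finset.card_univ, Fintype.card_fin]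
  let f : (Σ _ : (Σ _ : ℤ × (Fin n → ℤ), ℤ), ℤ × (Fin n → ℤ) × ℤ) →
      (ℤ × (Fin n → ℤ) × ℤ) × ((Fin n → ℤ) × ℤ × ℤ) := fun p =>
    (p.2, (fun i => p.2.2.1 i - p.1.1.2 i, p.2.1 - p.1.2, p.2.2.2 - (p.1.2 + tt Pl p.1.1.1 p.1.1.2)))
  have hmap : ∀ p ∈ Q.sigma F, f p ∈ (NN A Pl M w U) ×ˢ E := by
    rintro ⟨q, x0, x, a⟩ hp
    rw [Finset.mem_sigma] at hp
    obtain ⟨hq, hx⟩ := hp
    simp only at hq hx
    obtain ⟨hb, h1, h2, h3, h4, h5⟩ := hQm q hq
    have hzq := hz q.1 hb q.2 h1 h2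
    rw [hF] at hx
    simp only [Finset.mem_product, Fintype.mem_piFinset, mem_P] at hx
    obtain ⟨⟨⟨p1, p2⟩, p3⟩, hxi, ⟨⟨p4, p5⟩, p6⟩⟩ := hx
    have hu : U ≤ q.1.1 ∧ q.1.1 < 2 * U := by
      rw [hbase, Finset.mem_product, Finset.mem_Ico] at hb
      exact hb.1
    rw [Finset.mem_product]
    constructor
    · rw [mem_NN hM0]
      refine ⟨⟨p3, by linarith, by linarith, fun i => (hxi i).2, fun i => ?_, fun i => ?_, p6,
        by linarith, by linarith⟩, ?_⟩
      · have := (hxi i).1.1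
        have h6 := (h5 i).1
        simp only [hlo] at h6
        linarith
      · have := (hxi i).1.2
        have h6 := (h5 i).2.1
        simp only [hlo] at h6
        linarith
      · have c1 : (Pl.card : ℤ) = k - 1 := by
          have : ((Pl.card + 1 : ℕ) : ℤ) = k := by rw [hPl]
          push_cast at this
          linarith
        have c2 : (Plᶜ.card : ℤ) = k - 2 := by
          have : ((Plᶜ.card + 2 : ℕ) : ℤ) = k := by rw [hPlc]
          push_cast at this
          linarith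
        have g1 : ∑ i ∈ Pl, x i - ∑ i ∈ Pl, q.1.2 i ≤ (k - 1) * L := by
          rw [← Finset.sum_sub_distrib, ← c1]
          have := Finset.sum_le_card_nsmul Pl (fun i => x i - q.1.2 i) L
            (fun i _ => by linarith [(hxi i).1.2])
          rwa [nsmul_eq_mul] at this
        have g2 : ∑ i ∈ Plᶜ, x i - ∑ i ∈ Plᶜ, q.1.2 i ≤ (k - 2) * L := by
          rw [← Finset.sum_sub_distrib, ← c2]
          have := Finset.sum_le_card_nsmul Plᶜ (fun i => x i - q.1.2 i) L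
            (fun i _ => by linarith [(hxi i).1.2])
          rwa [nsmul_eq_mul] at this
        have g3 : 0 ≤ ∑ i ∈ Pl, x i - ∑ i ∈ Pl, q.1.2 i := by
          rw [← Finset.sum_sub_distrib]
          exact Finset.sum_nonneg fun i _ => by linarith [(hxi i).1.1]
        have g4 : 0 ≤ ∑ i ∈ Plᶜ, x i - ∑ i ∈ Plᶜ, q.1.2 i := by
          rw [← Finset.sum_sub_distrib]
          exact Finset.sum_nonneg fun i _ => by linarith [(hxi i).1.1]
        unfold V
        unfold tt at p4 p5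
        have e1 : ((k : ℤ) - 1) * L = k * L - L := by ring
        have e2 : ((k : ℤ) - 2) * L = k * L - 2 * L := by ring
        rw [e1] at g1
        rw [e2] at g2
        show -(4 * U) ≤ x0 + ∑ i ∈ Pl, x i - ∑ i ∈ Plᶜ, x i - a ∧
          x0 + ∑ i ∈ Pl, x i - ∑ i ∈ Plᶜ, x i - a < 0
        constructor
        · linarith
        · linarith
    · rw [hE, Finset.mem_product, Finset.mem_product, Fintype.mem_piFinset, Finset.mem_Icc,
        Finset.mem_Icc]
      refine ⟨fun i => ?_, ⟨?_, ?_⟩, ⟨?_, ?_⟩⟩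
      · rw [Finset.mem_Icc]
        have h6 := (hxi i).1
        show 1 ≤ x i - q.1.2 i ∧ x i - q.1.2 i ≤ L
        constructor <;> omega
      · show 1 ≤ x0 - q.2; omega
      · show x0 - q.2 ≤ L; omega
      · show 1 ≤ a - (q.2 + tt Pl q.1.1 q.1.2); omega
      · show a - (q.2 + tt Pl q.1.1 q.1.2) ≤ L; omega
  have hinj : Set.InjOn f (Q.sigma F : Set _) := by
    rintro ⟨⟨⟨u, r⟩, y⟩, x0, x, a⟩ _ ⟨⟨⟨u', r'⟩, y'⟩, x0', x', a'⟩ _ hff
    simp only [f, Prod.mk.injEq] at hff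
    obtain ⟨⟨rfl, rfl, rfl⟩, h1, h2, h3⟩ := hff
    have hr : r = r' := by
      funext i
      have := congrFun h1 i
      linarith
    have hy : y = y' := by linarith
    subst hr hy
    unfold tt at h3
    have hu : u = u' := by linarith
    subst hu
    rfl
  have h9 := Finset.card_le_card_of_injOn f hmap hinj
  rw [Finset.card_product] at h9
  have h10 : ((Q.sigma F).card : ℝ) ≤ ((NN A Pl M w U).card : ℝ) * (E.card : ℝ) := by
    exact_mod_cast h9
  rw [hEc] at h10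
  exact h10

end Pool.Agent.helper48.BH
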