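import Pool.Agent.helper48.BH.Core

set_option autoImplicit false

open Finset

namespace Pool.Agent.helper48.BH

/-- all scales together: disjointness -/
theorem total {n : ℕ} {Pl : Finset (Fin n)} {A : Set ℤ} (hA : IsBhZ (n + 2) A) {w : ℕ → ℤ} {U : ℤ}
    (hU : 0 ≤ U) (S : Finset ℕ) (hw : ∀ j ∈ S, 0 < w j)
    (hM : ∀ j ∈ S, 8 * ((n : ℤ) + 1) * w j ≤ 4 ^ j) :
    ∑ j ∈ S, ((NN A Pl (4 ^ j) (w j) U).card : ℤ) ≤ 4 * U := by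
  classical
  have h1 : (S.sigma fun j => NN A Pl (4 ^ j) (w j) U).card ≤ (Ico (-(4 * U)) 0).card := by
    apply Finset.card_le_card_of_injOn
      (fun p : (Σ _ : ℕ, ℤ × (Fin n → ℤ) × ℤ) => V Pl p.2.1 p.2.2.1 p.2.2.2)
    · rintro ⟨j, q⟩ hp
      rw [Finset.mem_coe, Finset.mem_sigma] at hp
      have h2 := (mem_NN (by positivity)).1 hp.2
      rw [Finset.mem_coe, Finset.mem_Ico]
      exact h2.2
    · rintro ⟨j, x0, x, a⟩ hp ⟨j', x0', x', a'⟩ hp' hV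
      rw [Finset.mem_coe, Finset.mem_sigma] at hp hp'
      have h2 := (mem_NN (by positivity)).1 hp.2
      have h2' := (mem_NN (by positivity)).1 hp'.2
      obtain ⟨e1, e2, e3, e4⟩ := uniq rfl hA (hw j hp.1) (hw j' hp'.1) (hM j hp.1) (hM j' hp'.1)
        h2.1 h2'.1 hV
      simp only at e2 e3 e4
      subst e1 e2 e3 e4
      rfl
  rw [Finset.card_sigma, Int.card_Ico] at h1
  have h3 : (((0 - -(4 * U)).toNat : ℕ) : ℤ) = 4 * U := by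
    rw [Int.toNat_of_nonneg (by linarith)]
    ring
  have h4 : ((∑ j ∈ S, (NN A Pl (4 ^ j) (w j) U).card : ℕ) : ℤ) ≤ (((0 - -(4 * U)).toNat : ℕ) : ℤ) := by
    exact_mod_cast h1
  rw [h3] at h4
  push_cast at h4
  exact h4

open Classical in
theorem main_int (n k : ℕ) (hk : 2 ≤ k) (hn : n + 3 = 2 * k) {A : Set ℤ} (hA : IsBhZ (n + 2) A)
    (s : ℕ) (hs : 16 * k ^ 2 ≤ 4 ^ s) (m : ℕ) (hm : s + 2 ≤ m) (η : ℝ) (hη : 0 < η) (ℓ : ℕ → ℝ)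
    (S : Finset ℕ) (hℓ : ∀ j ∈ S, 1 ≤ ℓ j ∧ 2 * (4 : ℝ) ^ s * ℓ j ≤ 4 ^ m) (hS : ∀ j ∈ S, m ≤ j)
    (good : ℕ → ℤ → Prop)
    (hgood : ∀ j ∈ S, ∀ y : ℤ, 4 ^ j ≤ y → y < 4 * 4 ^ j → good j y →
      η * ℓ j * (y : ℝ) ^ (1 / ((n : ℝ) + 2) - 1) ≤ ((P A ⌈ℓ j⌉ y).card : ℝ))
    (hD : ∀ j ∈ S, 4 * ((((Ico ((4 : ℤ) ^ j) (4 * 4 ^ j)).filter fun y => ¬ good j y).card : ℕ) : ℤ)
      ≤ 4 ^ (j - s)) :
    (S.card : ℝ) * η ^ (n + 2) ≤ 4 * ((2 * 4 ^ s) ^ (n + 1) * 8 ^ (n + 2)) := by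
  obtain ⟨Pl, -, hPl⟩ := Finset.exists_subset_card_eq (s := (Finset.univ : Finset (Fin n)))
    (n := k - 1) (by rw [Finset.card_univ, Fintype.card_fin]; omega)
  have hPl' : Pl.card + 1 = k := by omega
  set U : ℤ := 4 ^ (m - 2) with hU
  have hU0 : 0 < U := by positivity
  have h16U : 16 * U = 4 ^ m := by
    rw [hU]
    have : (4 : ℤ) ^ m = 4 ^ (m - 2 + 2) := by congr 1; omega
    rw [this, pow_add]
    ring
  have hUr : (0 : ℝ) < (U : ℝ) := by exact_mod_cast hU0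
  have hkz : (2 : ℤ) ≤ k := by exact_mod_cast hk
  have hnz : (n : ℤ) + 3 = 2 * k := by exact_mod_cast hn
  have hsz : 16 * (k : ℤ) ^ 2 ≤ 4 ^ s := by exact_mod_cast hs
  have hsr : 16 * (k : ℝ) ^ 2 ≤ 4 ^ s := by exact_mod_cast hs
  have hwM : ∀ j, m ≤ j → (4 : ℤ) ^ s * 4 ^ (j - s) = 4 ^ j := by
    intro j hj
    rw [← pow_add]
    congr 1
    omega
  have hcond : ∀ j, m ≤ j → 8 * (k : ℤ) * (((n : ℤ) + 1) * 4 ^ (j - s)) ≤ 4 ^ j := by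
    intro j hj
    rw [← hwM j hj]
    have h1 : 8 * (k : ℤ) * ((n : ℤ) + 1) ≤ 4 ^ s := by nlinarith
    have h2 : (0 : ℤ) < 4 ^ (j - s) := by positivity
    nlinarith
  have hcond2 : ∀ j ∈ S, 8 * ((n : ℤ) + 1) * 4 ^ (j - s) ≤ 4 ^ j := by
    intro j hj
    have h1 := hcond j (hS j hj)
    have h2 : (0 : ℤ) < 4 ^ (j - s) := by positivity
    have h3 : (0 : ℤ) ≤ ((n : ℤ) + 1) * 4 ^ (j - s) := by positivity
    nlinarith
  have htot := total (Pl := Pl) hA (w := fun j => 4 ^ (j - s)) hU0.le S (fun j _ => by positivity) hcond2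
  have key : ∀ j ∈ S, (U : ℝ) * η ^ (n + 2) ≤
      ((NN A Pl (4 ^ j) (4 ^ (j - s)) U).card : ℝ) * ((2 * 4 ^ s) ^ (n + 1) * 8 ^ (n + 2)) := by
    intro j hj
    obtain ⟨hl1, hl2⟩ := hℓ j hj
    have hmj := hS j hj
    set Mr : ℝ := (4 : ℝ) ^ j with hMr
    have hMr0 : 0 < Mr := by positivity
    have hL1 : ℓ j ≤ (⌈ℓ j⌉ : ℝ) := Int.le_ceil _
    have hL2 : ((⌈ℓ j⌉ : ℤ) : ℝ) < ℓ j + 1 := Int.ceil_lt_add_one _
    have hL3 : ((⌈ℓ j⌉ : ℤ) : ℝ) ≤ 2 * ℓ j := by linarith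
    have hL0 : 0 < ⌈ℓ j⌉ := Int.ceil_pos.2 (by linarith)
    have hKL : (4 : ℝ) ^ s * ((⌈ℓ j⌉ : ℤ) : ℝ) ≤ 4 ^ m := by
      have : (0 : ℝ) < 4 ^ s := by positivity
      nlinarith
    have hKLz : (4 : ℤ) ^ s * ⌈ℓ j⌉ ≤ 4 ^ m := by exact_mod_cast hKL
    have hmj4 : (4 : ℤ) ^ m ≤ 4 ^ j := pow_le_pow_right₀ (by norm_num) hmj
    have hLw : ⌈ℓ j⌉ ≤ (4 : ℤ) ^ (j - s) := by
      have h1 := hwM j hmj
      have h2 : (0 : ℤ) < 4 ^ s := by positivity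
      by_contra h3
      push Not at h3
      nlinarith
    have hkL : (k : ℤ) * ⌈ℓ j⌉ < U := by
      have h1 : 16 * (k : ℤ) * (k * ⌈ℓ j⌉) ≤ 16 * U := by
        rw [h16U]
        have : 16 * (k : ℤ) * (k * ⌈ℓ j⌉) = 16 * (k : ℤ) ^ 2 * ⌈ℓ j⌉ := by ring
        rw [this]
        exact (mul_le_mul_of_nonneg_right hsz hL0.le).trans hKLz
      have h4 : 0 < (k : ℤ) * ⌈ℓ j⌉ := by positivity
      nlinarith
    set c : ℝ := η * ℓ j * Mr ^ (1 / ((n : ℝ) + 2) - 1) / 4 with hc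
    have hexp : (1 : ℝ) / ((n : ℝ) + 2) - 1 ≤ 0 := by
      have h0 : (0 : ℝ) ≤ n := by positivity
      have : (1 : ℝ) / ((n : ℝ) + 2) ≤ 1 := by
        rw [div_le_one (by positivity)]
        linarith
      linarith
    have hexp2 : -1 ≤ (1 : ℝ) / ((n : ℝ) + 2) - 1 := by
      have : (0 : ℝ) ≤ (1 : ℝ) / ((n : ℝ) + 2) := by positivity
      linarith
    have hb := blk hk hn A Pl hPl' (4 ^ j) (4 ^ (j - s)) ⌈ℓ j⌉ U (by positivity) hL0 hLw hU0 hkL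
      (by rw [h16U]; exact hmj4) (hcond j hmj) (good j) c (by positivity) (by
        intro y hy1 hy2 hy3
        refine le_trans ?_ (hgood j hj y hy1 hy2 hy3)
        have hy1r : Mr ≤ (y : ℝ) := by rw [hMr]; exact_mod_cast hy1
        have hy2r : (y : ℝ) ≤ 4 * Mr := by rw [hMr]; exact_mod_cast hy2.le
        have hy0 : (0 : ℝ) < y := lt_of_lt_of_le hMr0 hy1r
        have e1 : (4 * Mr) ^ (1 / ((n : ℝ) + 2) - 1) ≤ (y : ℝ) ^ (1 / ((n : ℝ) + 2) - 1) :=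
          Real.rpow_le_rpow_of_nonpos hy0 hy2r hexp
        have e2 : (4 * Mr) ^ (1 / ((n : ℝ) + 2) - 1) =
            4 ^ (1 / ((n : ℝ) + 2) - 1) * Mr ^ (1 / ((n : ℝ) + 2) - 1) :=
          Real.mul_rpow (by norm_num) hMr0.le
        have e3 : (4 : ℝ) ^ (-1 : ℝ) ≤ 4 ^ (1 / ((n : ℝ) + 2) - 1) :=
          Real.rpow_le_rpow_of_exponent_le (by norm_num) hexp2
        rw [Real.rpow_neg_one] at e3
        have e4 : 0 < Mr ^ (1 / ((n : ℝ) + 2) - 1) := Real.rpow_pos_of_pos hMr0 _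
        have e5 : Mr ^ (1 / ((n : ℝ) + 2) - 1) / 4 ≤ (y : ℝ) ^ (1 / ((n : ℝ) + 2) - 1) := by
          rw [e2] at e1
          refine le_trans ?_ e1
          have := mul_le_mul_of_nonneg_right e3 e4.le
          linarith
        have e6 : 0 ≤ η * ℓ j := by positivity
        have e7 := mul_le_mul_of_nonneg_left e5 e6
        rw [hc]
        linarith [e7, mul_div_assoc (η * ℓ j) (Mr ^ (1 / ((n : ℝ) + 2) - 1)) 4]) _ rfl (hD j hj)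
    have hN0 : (0 : ℝ) ≤ ((NN A Pl (4 ^ j) (4 ^ (j - s)) U).card : ℝ) := Nat.cast_nonneg _
    have hwr : ((4 ^ (j - s) : ℤ) : ℝ) = Mr / 4 ^ s := by
      rw [eq_div_iff (by positivity), mul_comm, hMr]
      exact_mod_cast hwM j hmj
    rw [hwr] at hb
    have hl0 : 0 < ℓ j := by linarith
    have hLp : (((⌈ℓ j⌉ : ℤ) : ℝ)) ^ n * ((⌈ℓ j⌉ : ℝ) * (⌈ℓ j⌉ : ℝ)) ≤ (2 * ℓ j) ^ (n + 2) := by
      have : (((⌈ℓ j⌉ : ℤ) : ℝ)) ^ n * ((⌈ℓ j⌉ : ℝ) * (⌈ℓ j⌉ : ℝ)) = (⌈ℓ j⌉ : ℝ) ^ (n + 2) := by ring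
      rw [this]
      exact pow_le_pow_left₀ (by linarith) hL3 _
    have hb2 := hb.trans (mul_le_mul_of_nonneg_left hLp hN0)
    have hMp : (Mr ^ (1 / ((n : ℝ) + 2) - 1)) ^ (n + 2) * Mr ^ (n + 1) = 1 := by
      rw [← Real.rpow_natCast (Mr ^ (1 / ((n : ℝ) + 2) - 1)), ← Real.rpow_mul hMr0.le,
        ← Real.rpow_natCast Mr (n + 1), ← Real.rpow_add hMr0]
      have : (1 / ((n : ℝ) + 2) - 1) * ((n + 2 : ℕ) : ℝ) + ((n + 1 : ℕ) : ℝ) = 0 := by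
        push_cast
        field_simp
        ring
      rw [this, Real.rpow_zero]
    have hlhs : (U : ℝ) * (Mr / 4 ^ s / 2) ^ n * (Mr / 4 ^ s / 2) * (c * (c ^ n * c)) *
        ((2 * 4 ^ s) ^ (n + 1) * 8 ^ (n + 2)) =
        (U : ℝ) * η ^ (n + 2) * (2 * ℓ j) ^ (n + 2) := by
      have e1 : (U : ℝ) * (Mr / 4 ^ s / 2) ^ n * (Mr / 4 ^ s / 2) * (c * (c ^ n * c)) *
        ((2 * 4 ^ s) ^ (n + 1) * 8 ^ (n + 2)) = (U : ℝ) * ((Mr / 4 ^ s / 2) * (2 * 4 ^ s)) ^ (n + 1) *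
          (8 * c) ^ (n + 2) := by
        rw [mul_pow, mul_pow]
        ring
      have e2 : (Mr / 4 ^ s / 2) * (2 * 4 ^ s) = Mr := by
        field_simp
      have e3 : 8 * c = (η * (2 * ℓ j)) * Mr ^ (1 / ((n : ℝ) + 2) - 1) := by
        rw [hc]; ring
      rw [e1, e2, e3, mul_pow, mul_pow η]
      have : (U : ℝ) * Mr ^ (n + 1) * (η ^ (n + 2) * (2 * ℓ j) ^ (n + 2) *
          (Mr ^ (1 / ((n : ℝ) + 2) - 1)) ^ (n + 2)) = (U : ℝ) * η ^ (n + 2) * (2 * ℓ j) ^ (n + 2) *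
          ((Mr ^ (1 / ((n : ℝ) + 2) - 1)) ^ (n + 2) * Mr ^ (n + 1)) := by ring
      rw [this, hMp, mul_one]
    have hCp : (0 : ℝ) < (2 * 4 ^ s) ^ (n + 1) * 8 ^ (n + 2) := by positivity
    have hb3 := mul_le_mul_of_nonneg_right hb2 hCp.le
    rw [hlhs] at hb3
    have hlp : (0 : ℝ) < (2 * ℓ j) ^ (n + 2) := by positivity
    have hb4 : ((U : ℝ) * η ^ (n + 2)) * (2 * ℓ j) ^ (n + 2) ≤
        (((NN A Pl (4 ^ j) (4 ^ (j - s)) U).card : ℝ) * ((2 * 4 ^ s) ^ (n + 1) * 8 ^ (n + 2))) *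
          (2 * ℓ j) ^ (n + 2) := by
      refine hb3.trans (le_of_eq ?_)
      ring
    exact le_of_mul_le_mul_right hb4 hlp
  have hsum := Finset.sum_le_sum key
  rw [Finset.sum_const, nsmul_eq_mul, ← Finset.sum_mul] at hsum
  have htr : ∑ j ∈ S, ((NN A Pl (4 ^ j) (4 ^ (j - s)) U).card : ℝ) ≤ 4 * (U : ℝ) := by
    exact_mod_cast htot
  have hCp : (0 : ℝ) < (2 * 4 ^ s) ^ (n + 1) * 8 ^ (n + 2) := by positivity
  have h5 := hsum.trans (mul_le_mul_of_nonneg_right htr hCp.le)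
  have h6 : ((S.card : ℝ) * η ^ (n + 2)) * (U : ℝ) ≤
      (4 * ((2 * 4 ^ s) ^ (n + 1) * 8 ^ (n + 2))) * (U : ℝ) := by
    refine le_trans (le_of_eq (by ring)) (h5.trans (le_of_eq (by ring)))
  exact le_of_mul_le_mul_right h6 hUr

end Pool.Agent.helper48.BH
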