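import Pool.Agent.helper48.BH.Main

set_option autoImplicit false

open Finset

namespace Pool.Agent.helper48.BH

/-- B_h-set: all sums of `h` elements of `A`, repetitions allowed, are distinct (as multisets). -/
def IsBh (h : ℕ) (A : Set ℕ) : Prop :=
  ∀ s t : Multiset ℕ, Multiset.card s = h → Multiset.card t = h →
    (∀ x ∈ s, x ∈ A) → (∀ x ∈ t, x ∈ A) → s.sum = t.sum → s = t

/-- the number of elements of `A` in `(u, v]` -/
noncomputable def cnt (A : Set ℕ) (u v : ℝ) : ℝ :=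
  ((A ∩ {n : ℕ | u < (n : ℝ) ∧ (n : ℝ) ≤ v}).ncard : ℝ)

theorem cnt_fin (A : Set ℕ) (u v : ℝ) : (A ∩ {n : ℕ | u < (n : ℝ) ∧ (n : ℝ) ≤ v}).Finite := by
  apply Set.Finite.subset (Set.finite_Iic (⌊v⌋₊))
  rintro n ⟨_, _, hn⟩
  exact Nat.le_floor hn

theorem cnt_mono (A : Set ℕ) {u u' v v' : ℝ} (hu : u' ≤ u) (hv : v ≤ v') :
    cnt A u v ≤ cnt A u' v' := by
  unfold cnt
  have : (A ∩ {n : ℕ | u < (n : ℝ) ∧ (n : ℝ) ≤ v}).ncard ≤
      (A ∩ {n : ℕ | u' < (n : ℝ) ∧ (n : ℝ) ≤ v'}).ncard := by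
    apply Set.ncard_le_ncard _ (cnt_fin A u' v')
    rintro n ⟨h1, h2, h3⟩
    exact ⟨h1, lt_of_le_of_lt hu h2, h3.trans hv⟩
  exact_mod_cast this

theorem toZ {h : ℕ} {A : Set ℕ} (hA : IsBh h A) : IsBhZ h {x : ℤ | ∃ n ∈ A, (n : ℤ) = x} := by
  intro s t hs ht hsA htA hsum
  have e : ∀ u : Multiset ℤ, (∀ x ∈ u, x ∈ {x : ℤ | ∃ n ∈ A, (n : ℤ) = x}) →
      (u.map Int.toNat).map (fun n : ℕ => (n : ℤ)) = u := by
    intro u hu
    rw [Multiset.map_map]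
    conv_rhs => rw [← Multiset.map_id u]
    apply Multiset.map_congr rfl
    intro x hx
    obtain ⟨n, _, rfl⟩ := hu x hx
    simp
  have mem : ∀ u : Multiset ℤ, (∀ x ∈ u, x ∈ {x : ℤ | ∃ n ∈ A, (n : ℤ) = x}) →
      ∀ x ∈ u.map Int.toNat, x ∈ A := by
    intro u hu x hx
    obtain ⟨y, hy, rfl⟩ := Multiset.mem_map.1 hx
    obtain ⟨n, hn, rfl⟩ := hu y hy
    simpa using hn
  have sm : ∀ u : Multiset ℤ, (∀ x ∈ u, x ∈ {x : ℤ | ∃ n ∈ A, (n : ℤ) = x}) →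
      (((u.map Int.toNat).sum : ℕ) : ℤ) = u.sum := by
    intro u hu
    rw [Nat.cast_multiset_sum]
    exact congrArg Multiset.sum (e u hu)
  have key := hA (s.map Int.toNat) (t.map Int.toNat) (by simpa using hs) (by simpa using ht)
    (mem s hsA) (mem t htA) (by
      have h1 := sm s hsA
      have h2 := sm t htA
      have : (((s.map Int.toNat).sum : ℕ) : ℤ) = (((t.map Int.toNat).sum : ℕ) : ℤ) := by
        rw [h1, h2, hsum]
      exact_mod_cast this)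
  rw [← e s hsA, ← e t htA, key]

/-- **All but a few scales.** -/
theorem scales (h : ℕ) (hodd : Odd h) (h3 : 3 ≤ h) :
    ∃ C p c : ℝ, ∃ m₀ : ℕ, 0 < C ∧ 0 < p ∧ 0 < c ∧ c ≤ 1 / 4 ∧
      ∀ A : Set ℕ, IsBh h A → ∀ m : ℕ, m₀ ≤ m → ∀ η : ℝ, 0 < η → ∀ (ℓ : ℕ → ℝ) (S : Finset ℕ),
        (∀ j ∈ S, m ≤ j ∧ 1 ≤ ℓ j ∧ ℓ j ≤ c * 4 ^ m ∧
          (({y : ℕ | 4 ^ j ≤ y ∧ y < 4 ^ (j + 1) ∧
            cnt A y (y + ℓ j) ≤ η * ℓ j * (y : ℝ) ^ (1 / (h : ℝ) - 1)}.ncard : ℝ) < p * 4 ^ j)) →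
        (S.card : ℝ) ≤ C / η ^ h := by
  obtain ⟨q, hq⟩ := hodd
  obtain ⟨n, hn⟩ : ∃ n, h = n + 2 := ⟨h - 2, by omega⟩
  set k := q + 1 with hk
  have hk2 : 2 ≤ k := by omega
  have hnk : n + 3 = 2 * k := by omega
  set s := 16 * k ^ 2 with hs
  have hs4 : 16 * k ^ 2 ≤ 4 ^ s := by
    rw [← hs]
    exact (Nat.lt_pow_self (by norm_num)).le
  refine ⟨4 * ((2 * 4 ^ s) ^ (n + 1) * 8 ^ (n + 2)), 1 / (4 * 4 ^ s), 1 / (2 * 4 ^ s), s + 2,
    by positivity, by positivity, by positivity, ?_, ?_⟩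
  · rw [div_le_div_iff₀ (by positivity) (by norm_num)]
    have : (16 * 2 ^ 2 : ℝ) ≤ 4 ^ s := by
      have h1 : 16 * 2 ^ 2 ≤ 4 ^ s := le_trans (Nat.mul_le_mul_left _ (Nat.pow_le_pow_left hk2 2)) hs4
      exact_mod_cast h1
    linarith
  intro A hA m hm η hη ℓ S hS
  classical
  rw [hn] at hA
  have hhr : (h : ℝ) = (n : ℝ) + 2 := by rw [hn]; push_cast; ring
  have hη0 : 0 < η ^ h := by positivity
  rw [le_div_iff₀ hη0]
  have hmain := main_int n k hk2 hnk (toZ hA) s hs4 m hm η hη ℓ S ?_ (fun j hj => (hS j hj).1)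
    (fun j y => η * ℓ j * (y : ℝ) ^ (1 / ((n : ℝ) + 2) - 1) < cnt A (y : ℝ) ((y : ℝ) + ℓ j)) ?_ ?_
  · rw [hn]
    exact hmain
  · intro j hj
    obtain ⟨_, h1, h2, _⟩ := hS j hj
    refine ⟨h1, ?_⟩
    have h4 : (0 : ℝ) < 2 * 4 ^ s := by positivity
    have h5 := mul_le_mul_of_nonneg_left h2 h4.le
    refine h5.trans (le_of_eq ?_)
    field_simp
  · intro j hj y hy1 hy2 hy3
    refine hy3.le.trans ?_
    unfold cnt
    have h1 : (A ∩ {n : ℕ | (y : ℝ) < (n : ℝ) ∧ (n : ℝ) ≤ (y : ℝ) + ℓ j}).ncard ≤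
        (P {x : ℤ | ∃ n ∈ A, (n : ℤ) = x} ⌈ℓ j⌉ y).card := by
      rw [← Set.ncard_coe_finset]
      apply Set.ncard_le_ncard_of_injOn (fun n : ℕ => (n : ℤ))
      · rintro x ⟨hx1, hx2, hx3⟩
        rw [Finset.mem_coe, mem_P]
        refine ⟨⟨by exact_mod_cast hx2, ?_⟩, x, hx1, rfl⟩
        have h4 : (x : ℝ) ≤ (((y + ⌈ℓ j⌉ : ℤ)) : ℝ) := by
          push_cast
          linarith [Int.le_ceil (ℓ j)]
        exact_mod_cast h4
      · intro a _ b _ hab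
        have hab' : (a : ℤ) = (b : ℤ) := hab
        exact_mod_cast hab'
    exact_mod_cast h1
  · intro j hj
    obtain ⟨h0, _, _, h4⟩ := hS j hj
    set T : Set ℕ := {y : ℕ | 4 ^ j ≤ y ∧ y < 4 ^ (j + 1) ∧
            cnt A y (y + ℓ j) ≤ η * ℓ j * (y : ℝ) ^ (1 / (h : ℝ) - 1)} with hT
    have hTf : T.Finite := by
      apply Set.Finite.subset (Set.finite_Iio (4 ^ (j + 1)))
      rintro y ⟨_, hy, _⟩
      exact hy
    have h5 : ((Ico ((4 : ℤ) ^ j) (4 * 4 ^ j)).filter fun y : ℤ =>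
        ¬ (η * ℓ j * (y : ℝ) ^ (1 / ((n : ℝ) + 2) - 1) < cnt A (y : ℝ) ((y : ℝ) + ℓ j))).card ≤
        T.ncard := by
      rw [← Set.ncard_coe_finset]
      refine Set.ncard_le_ncard_of_injOn Int.toNat ?_ ?_ hTf
      · intro y hy
        rw [Finset.mem_coe, Finset.mem_filter, Finset.mem_Ico] at hy
        obtain ⟨⟨hy1, hy2⟩, hy3⟩ := hy
        have hy0 : 0 ≤ y := le_trans (by positivity) hy1
        obtain ⟨z, rfl⟩ := Int.eq_ofNat_of_zero_le hy0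
        rw [Int.toNat_natCast]
        push Not at hy3
        rw [hT]
        refine ⟨by exact_mod_cast hy1, ?_, ?_⟩
        · rw [pow_succ, mul_comm]
          exact_mod_cast hy2
        · rw [hhr]
          simpa using hy3
      · intro a ha b hb hab
        rw [Finset.mem_coe, Finset.mem_filter, Finset.mem_Ico] at ha hb
        have ha0 : 0 ≤ a := le_trans (by positivity) ha.1.1
        have hb0 : 0 ≤ b := le_trans (by positivity) hb.1.1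
        rw [← Int.toNat_of_nonneg ha0, ← Int.toNat_of_nonneg hb0, hab]
    have h6 : (4 : ℝ) * (T.ncard : ℝ) < 4 ^ (j - s) := by
      have h7 : (4 : ℝ) ^ j = 4 ^ s * 4 ^ (j - s) := by
        rw [← pow_add]
        congr 1
        omega
      rw [h7] at h4
      have h8 : (1 : ℝ) / (4 * 4 ^ s) * (4 ^ s * 4 ^ (j - s)) = 4 ^ (j - s) / 4 := by
        field_simp
      rw [h8] at h4
      linarith
    have h9 : 4 * T.ncard < 4 ^ (j - s) := by exact_mod_cast h6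
    have h10 : 4 * ((Ico ((4 : ℤ) ^ j) (4 * 4 ^ j)).filter fun y : ℤ =>
        ¬ (η * ℓ j * (y : ℝ) ^ (1 / ((n : ℝ) + 2) - 1) < cnt A (y : ℝ) ((y : ℝ) + ℓ j))).card ≤
        4 ^ (j - s) := by omega
    exact_mod_cast h10

/-- one scale out of `J` -/
theorem pick (h : ℕ) (hodd : Odd h) (h3 : 3 ≤ h) :
    ∃ C c : ℝ, ∃ m₀ : ℕ, 0 < C ∧ 0 < c ∧ c ≤ 1 / 4 ∧
      ∀ A : Set ℕ, IsBh h A → ∀ m J : ℕ, m₀ ≤ m → 0 < J → ∀ ℓ : ℕ → ℝ,
        (∀ j, m ≤ j → j < m + J → 1 ≤ ℓ j ∧ ℓ j ≤ c * 4 ^ m) →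
        ∃ j y : ℕ, m ≤ j ∧ j < m + J ∧ 4 ^ j ≤ y ∧ y < 4 ^ (j + 1) ∧
          cnt A y (y + ℓ j) ≤
            C * (J : ℝ) ^ (-(1 / (h : ℝ))) * ℓ j * (y : ℝ) ^ (1 / (h : ℝ) - 1) := by
  obtain ⟨C, p, c, m₀, hC, hp, hc, hc4, H⟩ := scales h hodd h3
  refine ⟨(2 * C) ^ (1 / (h : ℝ)), c, m₀, by positivity, hc, hc4, ?_⟩
  intro A hA m J hm hJ ℓ hℓ
  have hJr : (0 : ℝ) < J := by exact_mod_cast hJ
  have hh0 : (0 : ℝ) < h := by exact_mod_cast (by omega : 0 < h)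
  by_contra hcon
  push Not at hcon
  have h1 := H A hA m hm ((2 * C) ^ (1 / (h : ℝ)) * (J : ℝ) ^ (-(1 / (h : ℝ)))) (by positivity) ℓ
    (Finset.Ico m (m + J)) ?_
  · rw [Nat.card_Ico, Nat.add_sub_cancel_left] at h1
    have h2 : ((2 * C) ^ (1 / (h : ℝ)) * (J : ℝ) ^ (-(1 / (h : ℝ)))) ^ h = 2 * C / J := by
      rw [mul_pow, ← Real.rpow_natCast, ← Real.rpow_natCast, ← Real.rpow_mul (by positivity),
        ← Real.rpow_mul hJr.le]
      have e1 : 1 / (h : ℝ) * h = 1 := by field_simp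
      have e2 : -(1 / (h : ℝ)) * h = -1 := by field_simp
      rw [e1, e2, Real.rpow_one, Real.rpow_neg_one]
      rfl
    rw [h2] at h1
    have h4 : C / (2 * C / J) = (J : ℝ) / 2 := by
      field_simp
    rw [h4] at h1
    linarith
  · intro j hj
    rw [Finset.mem_Ico] at hj
    obtain ⟨h4, h5⟩ := hℓ j hj.1 hj.2
    refine ⟨hj.1, h4, h5, ?_⟩
    have h6 : {y : ℕ | 4 ^ j ≤ y ∧ y < 4 ^ (j + 1) ∧ cnt A y (y + ℓ j) ≤
        (2 * C) ^ (1 / (h : ℝ)) * (J : ℝ) ^ (-(1 / (h : ℝ))) * ℓ j *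
          (y : ℝ) ^ (1 / (h : ℝ) - 1)} = ∅ := by
      ext y
      simp only [Set.mem_ofPred_eq, Set.mem_empty_iff_false, iff_false]
      rintro ⟨h7, h8, h9⟩
      exact absurd h9 (not_le.2 (hcon j y hj.1 hj.2 h7 h8))
    rw [h6, Set.ncard_empty, Nat.cast_zero]
    positivity

end Pool.Agent.helper48.BH
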