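import Pool.Agent.helper48.BH.Cor

set_option autoImplicit false

open Finset

namespace Pool.Agent.helper48.BH

/-- the trivial bound -/
theorem triv (h : ℕ) (h1 : 1 ≤ h) : ∃ D : ℝ, 0 < D ∧ ∀ A : Set ℕ, IsBh h A → ∀ v : ℝ, 1 ≤ v →
    cnt A 0 v ≤ D * v ^ (1 / (h : ℝ)) := by
  have hh1 : (1 : ℝ) ≤ h := by exact_mod_cast h1
  refine ⟨h + ((h.factorial : ℝ) * (2 * h)) ^ (1 / (h : ℝ)), by positivity, ?_⟩
  intro A hA v hv
  set F := (cnt_fin A 0 v).toFinset with hF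
  have hFc : cnt A 0 v = (F.card : ℝ) := by
    unfold cnt
    rw [hF, Set.ncard_eq_toFinset_card _ (cnt_fin A 0 v)]
  have hFm : ∀ x ∈ F, x ∈ A ∧ x ≤ ⌊v⌋₊ := by
    intro x hx
    rw [hF, Set.Finite.mem_toFinset] at hx
    exact ⟨hx.1, Nat.le_floor hx.2.2⟩
  have hch : F.card.choose h ≤ h * ⌊v⌋₊ + 1 := by
    rw [← Finset.card_powersetCard, ← Finset.card_range (h * ⌊v⌋₊ + 1)]
    apply Finset.card_le_card_of_injOn (fun T => ∑ x ∈ T, x)
    · intro T hT
      rw [Finset.mem_coe, Finset.mem_powersetCard] at hT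
      rw [Finset.mem_coe, Finset.mem_range]
      have h2 := Finset.sum_le_card_nsmul T (fun x => x) ⌊v⌋₊ (fun x hx => (hFm x (hT.1 hx)).2)
      rw [hT.2, smul_eq_mul] at h2
      simp only
      omega
    · intro T hT T' hT' hTT
      rw [Finset.mem_coe, Finset.mem_powersetCard] at hT hT'
      have h2 := hA T.val T'.val hT.2 hT'.2 (fun x hx => (hFm x (hT.1 hx)).1)
        (fun x hx => (hFm x (hT'.1 hx)).1) (by
          have e1 : T.val.sum = ∑ x ∈ T, x := (Finset.sum_val T).trans rfl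
          have e2 : T'.val.sum = ∑ x ∈ T', x := (Finset.sum_val T').trans rfl
          rw [e1, e2]
          exact hTT)
      exact Finset.val_inj.1 h2
  have hch2 : ((F.card.choose h : ℕ) : ℝ) ≤ 2 * h * v := by
    have h2 : ((F.card.choose h : ℕ) : ℝ) ≤ h * (⌊v⌋₊ : ℝ) + 1 := by exact_mod_cast hch
    have h3 : (⌊v⌋₊ : ℝ) ≤ v := Nat.floor_le (by linarith)
    nlinarith
  have hp := Nat.pow_le_choose (α := ℝ) h F.card
  have hp2 : (((F.card + 1 - h : ℕ) : ℝ)) ^ h ≤ ((h.factorial : ℝ) * (2 * h)) * v := by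
    have h2 : (0 : ℝ) ≤ (h.factorial : ℝ) := by positivity
    have h4 := mul_le_mul_of_nonneg_left hch2 h2
    have h5 : (((F.card + 1 - h : ℕ) : ℝ)) ^ h ≤ (h.factorial : ℝ) * ((F.card.choose h : ℕ) : ℝ) := by
      rw [div_le_iff₀ (by positivity)] at hp
      linarith
    linarith
  have h6 : (((F.card + 1 - h : ℕ) : ℝ)) ≤
      ((h.factorial : ℝ) * (2 * h)) ^ (1 / (h : ℝ)) * v ^ (1 / (h : ℝ)) := by
    rw [← Real.mul_rpow (by positivity) (by linarith)]
    have h7 : (((F.card + 1 - h : ℕ) : ℝ)) = ((((F.card + 1 - h : ℕ) : ℝ)) ^ h) ^ (1 / (h : ℝ)) := by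
      rw [one_div]
      exact (Real.pow_rpow_inv_natCast (by positivity) (by omega)).symm
    rw [h7]
    exact Real.rpow_le_rpow (by positivity) hp2 (by positivity)
  have h8 : (F.card : ℝ) ≤ h + (((F.card + 1 - h : ℕ) : ℝ)) := by
    have : F.card ≤ h + (F.card + 1 - h) := by omega
    exact_mod_cast this
  have h9 : (1 : ℝ) ≤ v ^ (1 / (h : ℝ)) := Real.one_le_rpow hv (by positivity)
  rw [hFc, add_mul]
  nlinarith

/-- **Uniform local thinness.** -/
theorem thin (h : ℕ) (hodd : Odd h) (h3 : 3 ≤ h) :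
    ∃ C X₀ : ℝ, 0 < C ∧ ∀ A : Set ℕ, IsBh h A → ∀ ε : ℝ, 0 < ε → ε ≤ 1 / 2 →
      ∀ X : ℝ, X₀ ≤ X → 1 ≤ ε * X → ∃ y : ℕ, X ≤ y ∧ (y : ℝ) ≤ X / ε ∧
        cnt A y ((1 + ε) * y) ≤
          C * ε * Real.log (1 / ε) ^ (-(1 / (h : ℝ))) * (y : ℝ) ^ (1 / (h : ℝ)) := by
  obtain ⟨C, c, m₀, hC, hc, hc4, H⟩ := pick h hodd h3
  obtain ⟨D, hD, HD⟩ := triv h (by omega)
  have hhr : (3 : ℝ) ≤ h := by exact_mod_cast h3
  have hg0 : 0 ≤ 1 / (h : ℝ) := by positivity
  have hg1 : 1 / (h : ℝ) ≤ 1 := by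
    rw [div_le_one (by linarith)]
    linarith
  set B : ℝ := 2 * Real.log 4 + Real.log (1 / c) with hB
  have hl4 : 1 ≤ Real.log 4 := by
    have : Real.log 4 = 2 * Real.log 2 := by
      rw [show (4 : ℝ) = 2 ^ 2 by norm_num, Real.log_pow]
      push_cast
      rfl
    rw [this]
    linarith [Real.log_two_gt_d9]
  have hlc : 0 ≤ Real.log (1 / c) := by
    apply Real.log_nonneg
    rw [le_div_iff₀ hc]
    linarith
  have hB1 : 1 ≤ B := by linarith
  set E : ℝ := Real.log (4 / c) with hE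
  have hE1 : 1 ≤ E := by
    have : Real.log 4 ≤ E := by
      apply Real.log_le_log (by norm_num)
      rw [le_div_iff₀ hc]
      linarith
    linarith
  refine ⟨4 * C * B + D * 2 * (4 / c) * E, 4 ^ (m₀ + 1), by positivity, ?_⟩
  intro A hA ε hε hε2 X hX hεX
  have hX1 : (1 : ℝ) ≤ X := le_trans (one_le_pow₀ (by norm_num)) hX
  have hlε : 0 < Real.log (1 / ε) := by
    apply Real.log_pos
    rw [lt_div_iff₀ hε]
    linarith
  have hlp : 0 < Real.log (1 / ε) ^ (-(1 / (h : ℝ))) := Real.rpow_pos_of_pos hlε _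
  rcases le_or_gt ε (c / 4) with hcase | hcase
  · obtain ⟨m, hm, hXm, hmX⟩ := scaleOf m₀ X hX
    have hq : 4 ≤ c / ε := by
      rw [le_div_iff₀ hε]
      linarith
    set J : ℕ := Nat.log 4 ⌊c / ε⌋₊ with hJ
    have hq4 : 4 ≤ ⌊c / ε⌋₊ := Nat.le_floor (by exact_mod_cast hq)
    have hJ0 : 0 < J := Nat.log_pos (by norm_num) hq4
    have hJr : (0 : ℝ) < J := by exact_mod_cast hJ0
    have hJ1 : (4 : ℝ) ^ J ≤ c / ε := by
      have h1 : 4 ^ J ≤ ⌊c / ε⌋₊ := Nat.pow_log_le_self 4 (by omega)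
      have h2 : (4 : ℝ) ^ J ≤ (⌊c / ε⌋₊ : ℝ) := by exact_mod_cast h1
      exact h2.trans (Nat.floor_le (by positivity))
    have hJ2 : c / ε < (4 : ℝ) ^ (J + 1) := by
      have h1 : ⌊c / ε⌋₊ + 1 ≤ 4 ^ (J + 1) := Nat.lt_pow_succ_log_self (by norm_num) _
      have h2 : (⌊c / ε⌋₊ : ℝ) + 1 ≤ (4 : ℝ) ^ (J + 1) := by exact_mod_cast h1
      exact (Nat.lt_floor_add_one _).trans_le h2
    obtain ⟨j, y, hj1, hj2, hy1, hy2, hy3⟩ := H A hA m J hm hJ0 (fun j => ε * 4 ^ (j + 1)) (by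
      intro j hj1 hj2
      constructor
      · have h1 : (4 : ℝ) ^ m ≤ 4 ^ (j + 1) := pow_le_pow_right₀ (by norm_num) (by omega)
        exact hεX.trans (mul_le_mul_of_nonneg_left (hXm.trans h1) hε.le)
      · have h1 : (4 : ℝ) ^ (j + 1) ≤ 4 ^ (m + J) := pow_le_pow_right₀ (by norm_num) (by omega)
        rw [pow_add 4 m J] at h1
        have h2 : (4 : ℝ) ^ m * 4 ^ J ≤ 4 ^ m * (c / ε) := mul_le_mul_of_nonneg_left hJ1 (by positivity)
        have h4 := mul_le_mul_of_nonneg_left (h1.trans h2) hε.le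
        refine h4.trans (le_of_eq ?_)
        field_simp)
    have hy1r : (4 : ℝ) ^ j ≤ y := by exact_mod_cast hy1
    have hy2r : (y : ℝ) < 4 ^ (j + 1) := by exact_mod_cast hy2
    have hyp : (0 : ℝ) < y := lt_of_lt_of_le (by positivity) hy1r
    refine ⟨y, ?_, ?_, ?_⟩
    · have h1 : (4 : ℝ) ^ m ≤ 4 ^ j := pow_le_pow_right₀ (by norm_num) hj1
      exact hXm.trans (h1.trans hy1r)
    · have h1 : (4 : ℝ) ^ (j + 1) ≤ 4 ^ (m + J) := pow_le_pow_right₀ (by norm_num) (by omega)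
      rw [pow_add 4 m J] at h1
      have h2 : (4 : ℝ) ^ m * 4 ^ J ≤ (4 * X) * (c / ε) :=
        mul_le_mul hmX.le hJ1 (by positivity) (by linarith)
      have h4 : (4 * X) * (c / ε) ≤ X / ε := by
        have : (4 * X) * (c / ε) = (4 * c * X) / ε := by ring
        rw [this]
        apply div_le_div_of_nonneg_right _ hε.le
        nlinarith
      exact hy2r.le.trans (h1.trans (h2.trans h4))
    · have h1 : cnt A y ((1 + ε) * y) ≤ cnt A y (y + ε * 4 ^ (j + 1)) := by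
        apply cnt_mono A le_rfl
        nlinarith
      refine h1.trans (hy3.trans ?_)
      have h2 : ε * 4 ^ (j + 1) ≤ 4 * ε * y := by
        rw [pow_succ]
        nlinarith
      have hlogJ : Real.log (1 / ε) ≤ B * J := by
        have e1 : Real.log (c / ε) < ((J + 1 : ℕ) : ℝ) * Real.log 4 := by
          rw [← Real.log_pow]
          exact Real.log_lt_log (by positivity) hJ2
        have e2 : Real.log (1 / ε) = Real.log (c / ε) + Real.log (1 / c) := by
          rw [← Real.log_mul (by positivity) (by positivity)]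
          congr 1
          field_simp
        have e3 : (1 : ℝ) ≤ J := by exact_mod_cast hJ0
        rw [e2, hB]
        push_cast at e1
        nlinarith
      have hJp : (J : ℝ) ^ (-(1 / (h : ℝ))) ≤ B * Real.log (1 / ε) ^ (-(1 / (h : ℝ))) := by
        have e1 : (B * (J : ℝ)) ^ (-(1 / (h : ℝ))) ≤ Real.log (1 / ε) ^ (-(1 / (h : ℝ))) :=
          Real.rpow_le_rpow_of_nonpos hlε hlogJ (by linarith)
        have e2 : (B * (J : ℝ)) ^ (-(1 / (h : ℝ))) = B ^ (-(1 / (h : ℝ))) * (J : ℝ) ^ (-(1 / (h : ℝ))) :=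
          Real.mul_rpow (by linarith) hJr.le
        have e3 : B ^ (-1 : ℝ) ≤ B ^ (-(1 / (h : ℝ))) :=
          Real.rpow_le_rpow_of_exponent_le hB1 (by linarith)
        rw [Real.rpow_neg_one] at e3
        rw [e2] at e1
        have e4 : 0 ≤ (J : ℝ) ^ (-(1 / (h : ℝ))) := by positivity
        have e5 := (mul_le_mul_of_nonneg_right e3 e4).trans e1
        have hB0 : 0 < B := by linarith
        have e6 := mul_le_mul_of_nonneg_left e5 hB0.le
        rwa [← mul_assoc, mul_inv_cancel₀ hB0.ne', one_mul] at e6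
      have hyx : (y : ℝ) * (y : ℝ) ^ (1 / (h : ℝ) - 1) = (y : ℝ) ^ (1 / (h : ℝ)) := by
        rw [Real.rpow_sub_one hyp.ne']
        field_simp
      have hyn : 0 ≤ (y : ℝ) ^ (1 / (h : ℝ) - 1) := by positivity
      have hfin : C * (J : ℝ) ^ (-(1 / (h : ℝ))) * (ε * 4 ^ (j + 1)) * (y : ℝ) ^ (1 / (h : ℝ) - 1) ≤
          4 * C * B * ε * Real.log (1 / ε) ^ (-(1 / (h : ℝ))) * (y : ℝ) ^ (1 / (h : ℝ)) := by
        calc C * (J : ℝ) ^ (-(1 / (h : ℝ))) * (ε * 4 ^ (j + 1)) * (y : ℝ) ^ (1 / (h : ℝ) - 1)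
            ≤ C * (B * Real.log (1 / ε) ^ (-(1 / (h : ℝ)))) * (4 * ε * y) *
              (y : ℝ) ^ (1 / (h : ℝ) - 1) := by
              apply mul_le_mul_of_nonneg_right _ hyn
              apply mul_le_mul _ h2 (by positivity) (by positivity)
              exact mul_le_mul_of_nonneg_left hJp hC.le
          _ = 4 * C * B * ε * Real.log (1 / ε) ^ (-(1 / (h : ℝ))) *
              ((y : ℝ) * (y : ℝ) ^ (1 / (h : ℝ) - 1)) := by ring
          _ = _ := by rw [hyx]
      refine hfin.trans ?_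
      have hyn2 : 0 ≤ (y : ℝ) ^ (1 / (h : ℝ)) := by positivity
      have hE0 : 0 ≤ D * 2 * (4 / c) * E := by positivity
      apply mul_le_mul_of_nonneg_right _ hyn2
      apply mul_le_mul_of_nonneg_right _ hlp.le
      apply mul_le_mul_of_nonneg_right _ hε.le
      linarith
  · refine ⟨⌈X⌉₊, Nat.le_ceil X, ?_, ?_⟩
    · have h1 : (⌈X⌉₊ : ℝ) < X + 1 := Nat.ceil_lt_add_one (by linarith)
      rw [le_div_iff₀ hε]
      have h2 : (⌈X⌉₊ : ℝ) * ε ≤ (⌈X⌉₊ : ℝ) * (1 / 2) :=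
        mul_le_mul_of_nonneg_left hε2 (by positivity)
      linarith
    · set y := ⌈X⌉₊ with hy
      have hy1 : (1 : ℝ) ≤ y := hX1.trans (Nat.le_ceil X)
      have hyp : (0 : ℝ) < y := by linarith
      have h1 : cnt A y ((1 + ε) * y) ≤ cnt A 0 (2 * y) := by
        apply cnt_mono A hyp.le
        nlinarith
      have h2 := HD A hA (2 * y) (by linarith)
      have h4 : (2 * (y : ℝ)) ^ (1 / (h : ℝ)) ≤ 2 * (y : ℝ) ^ (1 / (h : ℝ)) := by
        rw [Real.mul_rpow (by norm_num) hyp.le]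
        apply mul_le_mul_of_nonneg_right _ (by positivity)
        calc (2 : ℝ) ^ (1 / (h : ℝ)) ≤ 2 ^ (1 : ℝ) :=
              Real.rpow_le_rpow_of_exponent_le (by norm_num) hg1
          _ = 2 := Real.rpow_one _
      have h5 : cnt A y ((1 + ε) * y) ≤ D * 2 * (y : ℝ) ^ (1 / (h : ℝ)) := by
        have := mul_le_mul_of_nonneg_left h4 hD.le
        linarith
      refine h5.trans ?_
      have hyn2 : 0 ≤ (y : ℝ) ^ (1 / (h : ℝ)) := by positivity
      apply mul_le_mul_of_nonneg_right _ hyn2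
      -- the logarithm is bounded
      have hlE : Real.log (1 / ε) ≤ E := by
        apply Real.log_le_log (by positivity)
        rw [div_le_div_iff₀ hε hc]
        linarith
      have h6 : E⁻¹ ≤ Real.log (1 / ε) ^ (-(1 / (h : ℝ))) := by
        have e1 : E ^ (-(1 / (h : ℝ))) ≤ Real.log (1 / ε) ^ (-(1 / (h : ℝ))) :=
          Real.rpow_le_rpow_of_nonpos hlε hlE (by linarith)
        have e2 : E ^ (-1 : ℝ) ≤ E ^ (-(1 / (h : ℝ))) :=
          Real.rpow_le_rpow_of_exponent_le hE1 (by linarith)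
        rw [Real.rpow_neg_one] at e2
        exact e2.trans e1
      have hE0 : 0 < E := by linarith
      have h7 : c / 4 * E⁻¹ ≤ ε * Real.log (1 / ε) ^ (-(1 / (h : ℝ))) :=
        mul_le_mul hcase.le h6 (by positivity) hε.le
      have h8 : D * 2 * (4 / c) * E * (c / 4 * E⁻¹) = D * 2 := by
        field_simp
      have h9 : D * 2 ≤ D * 2 * (4 / c) * E * (ε * Real.log (1 / ε) ^ (-(1 / (h : ℝ)))) := by
        calc D * 2 = D * 2 * (4 / c) * E * (c / 4 * E⁻¹) := h8.symm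
          _ ≤ _ := mul_le_mul_of_nonneg_left h7 (by positivity)
      have h10 : 0 ≤ 4 * C * B * (ε * Real.log (1 / ε) ^ (-(1 / (h : ℝ)))) := by positivity
      calc D * 2 ≤ D * 2 * (4 / c) * E * (ε * Real.log (1 / ε) ^ (-(1 / (h : ℝ)))) := h9
        _ ≤ 4 * C * B * (ε * Real.log (1 / ε) ^ (-(1 / (h : ℝ)))) +
            D * 2 * (4 / c) * E * (ε * Real.log (1 / ε) ^ (-(1 / (h : ℝ)))) := by linarith
        _ = (4 * C * B + D * 2 * (4 / c) * E) * ε * Real.log (1 / ε) ^ (-(1 / (h : ℝ))) := by ring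

end Pool.Agent.helper48.BH
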